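import Mathlib

set_option autoImplicit false

/-!
# The killed random walk model on `ℤ²` with couplings `ψ(x) e^{-|x|₁}`
-/

namespace Pool.Agent.TH982.KRW

open Filter Topology
open scoped ENNReal

/-- Sites of `ℤ²`. -/
abbrev Sx := ℤ × ℤ

/-- The norm `|x| = |x₁| + |x₂|`. -/
noncomputable def l1 (x : Sx) : ℝ := |(x.1 : ℝ)| + |(x.2 : ℝ)|

/-- The coupling `J_{0x} = ψ(x) e^{-|x|}` for `x ≠ 0`, and `J_{00} = 0`. -/
noncomputable def J (ψ : Sx → ℝ) (x : Sx) : ℝ := if x = 0 then 0 else ψ x * Real.exp (-l1 x)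

/-- Total weight of the walks `(γ_0, …, γ_n)` with `γ_0 = 0`, `γ_n = x`, the weight being
`∏ λ J_{γ_i γ_{i+1}}`. -/
noncomputable def walks (ψ : Sx → ℝ) (lam : ℝ) (n : ℕ) (x : Sx) : ℝ≥0∞ :=
  ∑' γ : Fin (n + 1) → Sx, if γ 0 = 0 ∧ γ (Fin.last n) = x then
    ∏ i : Fin n, ENNReal.ofReal (lam * J ψ (γ i.succ - γ i.castSucc)) else 0

/-- The two-point function `G_λ(0,x)` of the killed random walk. -/
noncomputable def G (ψ : Sx → ℝ) (lam : ℝ) (x : Sx) : ℝ≥0∞ := ∑' n : ℕ, walks ψ lam n x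

/-- The lattice point `z` with `n s ∈ z + [-1/2, 1/2)²`. -/
noncomputable def pt (s : ℝ × ℝ) (n : ℕ) : Sx := (⌊(n : ℝ) * s.1 + 1 / 2⌋, ⌊(n : ℝ) * s.2 + 1 / 2⌋)

/-- The inverse correlation length `ν_s(λ) = - lim (1/n) log G_λ(0, ns)`. -/
noncomputable def nu (ψ : Sx → ℝ) (s : ℝ × ℝ) (lam : ℝ) : ℝ :=
  limUnder atTop fun n : ℕ => -Real.log (G ψ lam (pt s n)).toReal / n

/-- `λ_c = sup {λ ≥ 0 : ∑_x G_λ(0,x) < ∞}`. -/
noncomputable def lamC (ψ : Sx → ℝ) : ℝ := sSup {lam : ℝ | 0 ≤ lam ∧ ∑' x, G ψ lam x < ∞}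

/-- Unit vectors for the Euclidean norm. -/
abbrev Unit2 := {s : ℝ × ℝ // s.1 ^ 2 + s.2 ^ 2 = 1}

/-- `λ_exp = min (λ_c, inf {λ < λ_c : inf_s ν_s(λ) = 0})`, the infimum of the empty set being
`+∞`. -/
noncomputable def lamExp (ψ : Sx → ℝ) : EReal :=
  min (lamC ψ : EReal)
    (sInf {x : EReal | ∃ lam : ℝ, x = (lam : EReal) ∧ 0 < lam ∧ lam < lamC ψ ∧
      (⨅ s : Unit2, nu ψ s.1 lam) = 0})

/-- `λ_sat(s) = sup {λ < λ_c : ν_s(λ) = |s|}`. -/
noncomputable def lamSat (ψ : Sx → ℝ) (s : ℝ × ℝ) : ℝ :=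
  sSup {lam : ℝ | 0 < lam ∧ lam < lamC ψ ∧ nu ψ s lam = |s.1| + |s.2|}

/-! ### Recursion -/

lemma walks_zero (ψ : Sx → ℝ) (lam : ℝ) (x : Sx) : walks ψ lam 0 x = if x = 0 then 1 else 0 := by
  unfold walks
  rw [tsum_eq_single (fun _ => x)]
  · simp
  · intro γ hγ
    rw [if_neg]
    rintro ⟨_, h2⟩
    refine hγ (funext fun i => ?_)
    have hi : i = Fin.last 0 := Fin.ext (by have := i.2; simp only [Fin.val_last]; omega)
    rw [← h2, hi]

lemma walks_succ (ψ : Sx → ℝ) (lam : ℝ) (n : ℕ) (x : Sx) :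
    walks ψ lam (n + 1) x = ∑' y, walks ψ lam n y * ENNReal.ofReal (lam * J ψ (x - y)) := by
  unfold walks
  rw [← (Fin.snocEquiv (fun _ : Fin (n + 2) => Sx)).tsum_eq, ENNReal.tsum_prod', ENNReal.tsum_comm]
  simp_rw [← ENNReal.tsum_mul_right]
  conv_rhs => rw [ENNReal.tsum_comm]
  refine tsum_congr fun γ => ?_
  have e1 : ∀ z : Sx, (Fin.snocEquiv (fun _ : Fin (n + 2) => Sx)) (z, γ) = Fin.snoc γ z := fun z =>
    rfl
  have h0 : ∀ z : Sx, (Fin.snoc γ z : Fin (n + 2) → Sx) 0 = γ 0 := fun z => by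
    rw [← Fin.castSucc_zero, Fin.snoc_castSucc]
  have hl : ∀ z : Sx, (Fin.snoc γ z : Fin (n + 2) → Sx) (Fin.last (n + 1)) = z := fun z =>
    Fin.snoc_last _ _
  have hp : ∀ z : Sx, ∏ i : Fin (n + 1), ENNReal.ofReal
      (lam * J ψ ((Fin.snoc γ z : Fin (n + 2) → Sx) i.succ -
        (Fin.snoc γ z : Fin (n + 2) → Sx) i.castSucc)) =
      (∏ i : Fin n, ENNReal.ofReal (lam * J ψ (γ i.succ - γ i.castSucc))) *
        ENNReal.ofReal (lam * J ψ (z - γ (Fin.last n))) := by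
    intro z
    rw [Fin.prod_univ_castSucc]
    congr 1
    · refine Finset.prod_congr rfl fun i _ => ?_
      rw [Fin.succ_castSucc, Fin.snoc_castSucc, Fin.snoc_castSucc]
    · rw [Fin.succ_last, Fin.snoc_last, Fin.snoc_castSucc]
  simp_rw [e1, h0, hl, hp]
  rw [tsum_eq_single x, tsum_eq_single (γ (Fin.last n))]
  · by_cases h : γ 0 = 0
    · simp [h]
    · simp [h]
  · intro y hy
    rw [if_neg, zero_mul]
    rintro ⟨_, h⟩; exact hy h.symm
  · intro z hz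
    rw [if_neg]
    rintro ⟨_, h⟩; exact hz h

lemma G_eq (ψ : Sx → ℝ) (lam : ℝ) (x : Sx) :
    G ψ lam x = (if x = 0 then 1 else 0) + ∑' y, G ψ lam y * ENNReal.ofReal (lam * J ψ (x - y)) := by
  have h : G ψ lam x = walks ψ lam 0 x + ∑' n, walks ψ lam (n + 1) x := by
    unfold G
    exact tsum_eq_zero_add' ENNReal.summable
  rw [h, walks_zero]
  congr 1
  simp_rw [walks_succ, G]
  rw [ENNReal.tsum_comm]
  refine tsum_congr fun y => ?_
  rw [ENNReal.tsum_mul_right]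

/-- exponential tilt -/
noncomputable def ex (t : ℝ × ℝ) (x : Sx) : ℝ≥0∞ := ENNReal.ofReal (Real.exp (t.1 * x.1 + t.2 * x.2))

lemma ex_add (t : ℝ × ℝ) (x y : Sx) : ex t (x + y) = ex t x * ex t y := by
  unfold ex
  rw [← ENNReal.ofReal_mul (Real.exp_pos _).le, ← Real.exp_add]
  congr 2
  simp only [Prod.fst_add, Prod.snd_add]
  push_cast; ring

/-- generating function of one step -/
noncomputable def Lt (ψ : Sx → ℝ) (lam : ℝ) (t : ℝ × ℝ) : ℝ≥0∞ :=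
  ∑' x, ENNReal.ofReal (lam * J ψ x) * ex t x

lemma walks_gf (ψ : Sx → ℝ) (lam : ℝ) (t : ℝ × ℝ) (n : ℕ) :
    ∑' x, walks ψ lam n x * ex t x = (Lt ψ lam t) ^ n := by
  induction n with
  | zero =>
    simp_rw [walks_zero]
    rw [tsum_eq_single 0]
    · simp [ex]
    · intro x hx; simp [hx]
  | succ n ih =>
    simp_rw [walks_succ, ← ENNReal.tsum_mul_right]
    rw [ENNReal.tsum_comm]
    have h : ∀ y, ∑' x, walks ψ lam n y * ENNReal.ofReal (lam * J ψ (x - y)) * ex t x =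
        (walks ψ lam n y * ex t y) * Lt ψ lam t := by
      intro y
      unfold Lt
      rw [← ENNReal.tsum_mul_left, ← (Equiv.subRight y).tsum_eq
        (fun x => walks ψ lam n y * ex t y * (ENNReal.ofReal (lam * J ψ x) * ex t x))]
      refine tsum_congr fun x => ?_
      simp only [Equiv.subRight_apply]
      have : ex t x = ex t y * ex t (x - y) := by
        rw [← ex_add]; congr 1; abel
      rw [this]; ring
    simp_rw [h]
    rw [ENNReal.tsum_mul_right, ih, pow_succ]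

lemma G_gf (ψ : Sx → ℝ) (lam : ℝ) (t : ℝ × ℝ) :
    ∑' x, G ψ lam x * ex t x = (1 - Lt ψ lam t)⁻¹ := by
  unfold G
  simp_rw [← ENNReal.tsum_mul_right]
  rw [ENNReal.tsum_comm]
  simp_rw [walks_gf]
  exact ENNReal.tsum_geometric _

lemma ex_zero (x : Sx) : ex (0, 0) x = 1 := by simp [ex]

lemma G_sum (ψ : Sx → ℝ) (lam : ℝ) : ∑' x, G ψ lam x = (1 - Lt ψ lam (0, 0))⁻¹ := by
  rw [← G_gf]
  exact tsum_congr fun x => by rw [ex_zero, mul_one]

end Pool.Agent.TH982.KRW
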