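import Mathlib

set_option autoImplicit false

/-!
# The one-dimensional generating function `F u = ∑ (1+k²)^{-2} e^{-|k|} cosh (u k)`
-/

namespace Pool.Agent.TH982.KRW

open Filter Topology

/-- the polynomial factor -/
noncomputable def gg (k : ℤ) : ℝ := 1 / (1 + (k : ℝ) ^ 2) ^ 2

lemma gg_pos (k : ℤ) : 0 < gg k := by unfold gg; positivity

lemma gg_neg (k : ℤ) : gg (-k) = gg k := by unfold gg; push_cast; ring_nf

lemma gg_zero : gg 0 = 1 := by simp [gg]

lemma summable_sq_inv : Summable fun k : ℤ => 1 / (1 + (k : ℝ) ^ 2) := by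
  have h1 : Summable fun k : ℤ => |(k : ℝ)| ^ (-(2 : ℝ)) :=
    Real.summable_abs_int_rpow (by norm_num)
  have h2 : Summable fun k : ℤ => if k = 0 then (1 : ℝ) else 0 :=
    summable_of_ne_finset_zero (s := {0}) fun k hk => by
      rw [Finset.mem_singleton] at hk; rw [if_neg hk]
  refine Summable.of_nonneg_of_le (fun k => by positivity) (fun k => ?_) (h2.add h1)
  by_cases hk : k = 0
  · subst hk; simp
  · rw [if_neg hk, zero_add, Real.rpow_neg (abs_nonneg _)]
    have hk' : (0 : ℝ) < |(k : ℝ)| := abs_pos.2 (by exact_mod_cast hk)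
    rw [one_div]
    refine inv_anti₀ (by positivity) ?_
    rw [show (2 : ℝ) = ((2 : ℕ) : ℝ) by norm_num, Real.rpow_natCast, sq_abs]
    linarith

lemma abs_mul_gg_le (k : ℤ) : |(k : ℝ)| * gg k ≤ 1 / (1 + (k : ℝ) ^ 2) := by
  unfold gg
  have h : |(k : ℝ)| ≤ 1 + (k : ℝ) ^ 2 := by
    rw [← sq_abs]; nlinarith [sq_nonneg (|(k : ℝ)| - 1), abs_nonneg (k : ℝ)]
  rw [mul_one_div, div_le_div_iff₀ (by positivity) (by positivity)]
  nlinarith [sq_nonneg (k : ℝ), abs_nonneg (k : ℝ)]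

lemma summable_abs_gg : Summable fun k : ℤ => |(k : ℝ)| * gg k :=
  Summable.of_nonneg_of_le (fun k => mul_nonneg (abs_nonneg _) (gg_pos k).le) abs_mul_gg_le
    summable_sq_inv

lemma gg_le (k : ℤ) : gg k ≤ 1 / (1 + (k : ℝ) ^ 2) := by
  unfold gg
  rw [div_le_div_iff₀ (by positivity) (by positivity)]
  nlinarith [sq_nonneg (k : ℝ), sq_nonneg ((k : ℝ) ^ 2)]

lemma summable_gg : Summable gg :=
  Summable.of_nonneg_of_le (fun k => (gg_pos k).le) gg_le summable_sq_inv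

/-- one-dimensional weight -/
noncomputable def ff (k : ℤ) : ℝ := gg k * Real.exp (-|(k : ℝ)|)

lemma ff_pos (k : ℤ) : 0 < ff k := mul_pos (gg_pos k) (Real.exp_pos _)

lemma ff_zero : ff 0 = 1 := by simp [ff, gg_zero]

lemma ff_neg (k : ℤ) : ff (-k) = ff k := by unfold ff; rw [gg_neg]; simp

lemma exp_le (u : ℝ) (hu : |u| ≤ 1) (k : ℤ) :
    Real.exp (-|(k : ℝ)|) * Real.exp (u * k) ≤ 1 := by
  rw [← Real.exp_add, Real.exp_le_one_iff]
  have : u * k ≤ |(k : ℝ)| := by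
    calc u * k ≤ |u * k| := le_abs_self _
      _ = |u| * |(k : ℝ)| := abs_mul _ _
      _ ≤ 1 * |(k : ℝ)| := mul_le_mul_of_nonneg_right hu (abs_nonneg _)
      _ = |(k : ℝ)| := one_mul _
  linarith

lemma cosh_le' (u : ℝ) (hu : |u| ≤ 1) (k : ℤ) :
    Real.exp (-|(k : ℝ)|) * Real.cosh (u * k) ≤ 1 := by
  rw [Real.cosh_eq]
  have h1 := exp_le u hu k
  have h2 := exp_le (-u) (by rwa [abs_neg]) k
  rw [neg_mul] at h2
  linarith

lemma sinh_le' (u : ℝ) (hu : |u| ≤ 1) (k : ℤ) :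
    Real.exp (-|(k : ℝ)|) * |Real.sinh (u * k)| ≤ 1 := by
  have h1 := exp_le u hu k
  have h2 := exp_le (-u) (by rwa [abs_neg]) k
  rw [neg_mul] at h2
  rw [Real.sinh_eq]
  have h3 : |(Real.exp (u * k) - Real.exp (-(u * k))) / 2| ≤
      (Real.exp (u * k) + Real.exp (-(u * k))) / 2 := by
    rw [abs_le]; constructor <;> linarith [Real.exp_pos (u * k), Real.exp_pos (-(u * k))]
  calc _ ≤ Real.exp (-|(k : ℝ)|) * ((Real.exp (u * k) + Real.exp (-(u * k))) / 2) :=
        mul_le_mul_of_nonneg_left h3 (Real.exp_pos _).le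
    _ ≤ 1 := by linarith

/-- the generating function -/
noncomputable def F (u : ℝ) : ℝ := ∑' k : ℤ, ff k * Real.cosh (u * k)

/-- its derivative -/
noncomputable def D (u : ℝ) : ℝ := ∑' k : ℤ, ff k * (k * Real.sinh (u * k))

lemma F_term_le {u : ℝ} (hu : |u| ≤ 1) (k : ℤ) : ‖ff k * Real.cosh (u * k)‖ ≤ gg k := by
  rw [Real.norm_eq_abs, abs_of_nonneg (mul_nonneg (ff_pos k).le (Real.cosh_pos _).le)]
  unfold ff
  rw [mul_assoc]
  exact mul_le_of_le_one_right (gg_pos k).le (cosh_le' u hu k)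

lemma D_term_le {u : ℝ} (hu : |u| ≤ 1) (k : ℤ) :
    ‖ff k * (k * Real.sinh (u * k))‖ ≤ |(k : ℝ)| * gg k := by
  rw [Real.norm_eq_abs, abs_mul, abs_mul, abs_of_pos (ff_pos k)]
  unfold ff
  have h := sinh_le' u hu k
  calc gg k * Real.exp (-|(k : ℝ)|) * (|(k : ℝ)| * |Real.sinh (u * k)|)
      = (|(k : ℝ)| * gg k) * (Real.exp (-|(k : ℝ)|) * |Real.sinh (u * k)|) := by ring
    _ ≤ |(k : ℝ)| * gg k :=
        mul_le_of_le_one_right (mul_nonneg (abs_nonneg _) (gg_pos k).le) h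

lemma summable_F {u : ℝ} (hu : |u| ≤ 1) : Summable fun k : ℤ => ff k * Real.cosh (u * k) :=
  Summable.of_norm_bounded summable_gg (F_term_le hu)

lemma summable_D {u : ℝ} (hu : |u| ≤ 1) : Summable fun k : ℤ => ff k * (k * Real.sinh (u * k)) :=
  Summable.of_norm_bounded summable_abs_gg (D_term_le hu)

lemma F_neg (u : ℝ) : F (-u) = F u := by
  unfold F
  refine tsum_congr fun k => ?_
  rw [neg_mul, Real.cosh_neg]

lemma F_abs (u : ℝ) : F |u| = F u := by
  rcases abs_cases u with ⟨h, _⟩ | ⟨h, _⟩ <;> rw [h]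
  exact F_neg u

lemma continuousOn_F : ContinuousOn F (Set.Icc (-1) 1) :=
  continuousOn_tsum (u := gg) (fun k => by fun_prop) summable_gg
    fun k u hu => F_term_le (abs_le.2 hu) k

lemma continuousOn_D : ContinuousOn D (Set.Icc (-1) 1) :=
  continuousOn_tsum (u := fun k : ℤ => |(k : ℝ)| * gg k) (fun k => by fun_prop) summable_abs_gg
    fun k u hu => D_term_le (abs_le.2 hu) k

lemma hasDerivAt_F {u : ℝ} (hu : u ∈ Set.Ioo (-1 : ℝ) 1) : HasDerivAt F (D u) u := by
  refine hasDerivAt_tsum_of_isPreconnected (u := fun k : ℤ => |(k : ℝ)| * gg k) summable_abs_gg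
    isOpen_Ioo isPreconnected_Ioo (g := fun (k : ℤ) (u : ℝ) => ff k * Real.cosh (u * k))
    (g' := fun (k : ℤ) (u : ℝ) => ff k * (k * Real.sinh (u * k))) ?_ ?_ hu ?_ hu
  · intro k y _
    have h1 : HasDerivAt (fun u : ℝ => u * (k : ℝ)) (k : ℝ) y := by
      simpa using (hasDerivAt_id y).mul_const (k : ℝ)
    have h := (h1.cosh).const_mul (ff k)
    refine h.congr_deriv ?_
    ring
  · intro k y hy
    exact D_term_le (abs_le.2 ⟨hy.1.le, hy.2.le⟩) k
  · exact summable_F (abs_le.2 ⟨hu.1.le, hu.2.le⟩)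

lemma F_one_le {u : ℝ} (hu : |u| ≤ 1) : 1 ≤ F u := by
  have h := (summable_F hu).le_tsum 0 (fun k _ => mul_nonneg (ff_pos k).le (Real.cosh_pos _).le)
  unfold F
  simpa [ff_zero] using h

lemma F_lt {u v : ℝ} (hu : 0 ≤ u) (huv : u < v) (hv : v ≤ 1) : F u < F v := by
  have hu1 : |u| ≤ 1 := by rw [abs_of_nonneg hu]; linarith
  have hv1 : |v| ≤ 1 := by rw [abs_of_nonneg (by linarith)]; exact hv
  refine (summable_F hu1).tsum_lt_tsum (i := 1) (fun k => ?_) ?_ (summable_F hv1)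
  · refine mul_le_mul_of_nonneg_left ?_ (ff_pos k).le
    rw [Real.cosh_le_cosh, abs_mul, abs_mul, abs_of_nonneg hu, abs_of_nonneg (by linarith : 0 ≤ v)]
    exact mul_le_mul_of_nonneg_right huv.le (abs_nonneg _)
  · refine mul_lt_mul_of_pos_left ?_ (ff_pos 1)
    rw [Real.cosh_lt_cosh]
    simp only [Int.cast_one, mul_one]
    rw [abs_of_nonneg hu, abs_of_nonneg (by linarith : 0 ≤ v)]
    exact huv

lemma F_le {u v : ℝ} (hu : 0 ≤ u) (huv : u ≤ v) (hv : v ≤ 1) : F u ≤ F v := by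
  rcases huv.eq_or_lt with h | h
  · rw [h]
  · exact (F_lt hu h hv).le

lemma D_zero : D 0 = 0 := by simp [D]

lemma D_mono {u v : ℝ} (hu : 0 ≤ u) (huv : u ≤ v) (hv : v ≤ 1) : D u ≤ D v := by
  have hu1 : |u| ≤ 1 := by rw [abs_of_nonneg hu]; linarith
  have hv1 : |v| ≤ 1 := by rw [abs_of_nonneg (by linarith)]; exact hv
  refine (summable_D hu1).tsum_le_tsum (fun k => ?_) (summable_D hv1)
  refine mul_le_mul_of_nonneg_left ?_ (ff_pos k).le
  rcases le_total 0 (k : ℝ) with h | h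
  · refine mul_le_mul_of_nonneg_left ?_ h
    rw [Real.sinh_le_sinh]
    exact mul_le_mul_of_nonneg_right huv h
  · refine mul_le_mul_of_nonpos_left ?_ h
    rw [Real.sinh_le_sinh]
    exact mul_le_mul_of_nonpos_right huv h

lemma D_pos {u : ℝ} (hu : 0 < u) (hu1 : u ≤ 1) : 0 < D u := by
  have hu' : |u| ≤ 1 := by rw [abs_of_pos hu]; exact hu1
  refine (summable_D hu').tsum_pos (fun k => ?_) 1 ?_
  · refine mul_nonneg (ff_pos k).le ?_
    rcases le_total 0 (k : ℝ) with h | h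
    · exact mul_nonneg h (Real.sinh_nonneg_iff.2 (mul_nonneg hu.le h))
    · exact mul_nonneg_of_nonpos_of_nonpos h
        (Real.sinh_nonpos_iff.2 (mul_nonpos_of_nonneg_of_nonpos hu.le h))
  · refine mul_pos (ff_pos 1) ?_
    simp only [Int.cast_one, one_mul, mul_one]
    exact Real.sinh_pos_iff.2 hu

/-- analyticity in the open interval -/
lemma analyticAt_F {u : ℝ} (hu : u ∈ Set.Ioo (-1 : ℝ) 1) : AnalyticAt ℝ F u := by
  let Fc : ℂ → ℂ := fun z => ∑' k : ℤ, (ff k : ℂ) * Complex.cosh (z * k)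
  let U : Set ℂ := {z | z.re ∈ Set.Ioo (-1 : ℝ) 1}
  have hU : IsOpen U := isOpen_Ioo.preimage Complex.continuous_re
  have hd : DifferentiableOn ℂ Fc U := by
    refine Complex.differentiableOn_tsum_of_summable_norm (u := gg) summable_gg (fun k => ?_) hU ?_
    · fun_prop
    · intro k w hw
      rw [norm_mul, Complex.norm_real, Real.norm_eq_abs, abs_of_pos (ff_pos k)]
      have h1 : ‖Complex.cosh (w * k)‖ ≤ Real.cosh (w.re * k) := by
        rw [Complex.cosh, Real.cosh_eq]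
        have e1 : ‖Complex.exp (w * k)‖ = Real.exp (w.re * k) := by
          rw [Complex.norm_exp]; simp
        have e2 : ‖Complex.exp (-(w * k))‖ = Real.exp (-(w.re * k)) := by
          rw [Complex.norm_exp]; simp
        calc _ = ‖Complex.exp (w * k) + Complex.exp (-(w * k))‖ / 2 := by
              rw [norm_div]; simp
          _ ≤ (‖Complex.exp (w * k)‖ + ‖Complex.exp (-(w * k))‖) / 2 := by
              gcongr; exact norm_add_le _ _
          _ = _ := by rw [e1, e2]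
      have hw' : |w.re| ≤ 1 := abs_le.2 ⟨hw.1.le, hw.2.le⟩
      calc ff k * ‖Complex.cosh (w * k)‖ ≤ ff k * Real.cosh (w.re * k) :=
            mul_le_mul_of_nonneg_left h1 (ff_pos k).le
        _ ≤ gg k := by
            have := F_term_le hw' k
            rwa [Real.norm_eq_abs, abs_of_nonneg (mul_nonneg (ff_pos k).le (Real.cosh_pos _).le)]
              at this
  have ha : AnalyticAt ℂ Fc (u : ℂ) := hd.analyticAt (hU.mem_nhds (by simpa [U] using hu))
  have hr := ha.re_ofReal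
  refine hr.congr ?_
  filter_upwards [isOpen_Ioo.mem_nhds hu] with v hv
  have hv1 : |v| ≤ 1 := abs_le.2 ⟨hv.1.le, hv.2.le⟩
  have : Fc (v : ℂ) = ((F v : ℝ) : ℂ) := by
    simp only [Fc, F]
    rw [Complex.ofReal_tsum]
    refine tsum_congr fun k => ?_
    push_cast; rfl
  rw [this, Complex.ofReal_re]

/-- near `1` the logarithmic derivative varies little -/
lemma exists_u0 : ∃ u0 : ℝ, 0 < u0 ∧ u0 < 1 ∧ ∀ u v : ℝ, u0 < u → u < 1 → u0 < v → v < 1 →
    D u * F v < 2 * (D v * F u) := by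
  have h1 : (1 : ℝ) ∈ Set.Icc (-1 : ℝ) 1 := by norm_num
  have hD1 : 0 < D 1 := D_pos one_pos le_rfl
  have hF1 : 1 ≤ F 1 := F_one_le (by norm_num)
  have cD := (continuousOn_D 1 h1)
  have cF := (continuousOn_F 1 h1)
  have eD : ∀ᶠ u in 𝓝[Set.Icc (-1 : ℝ) 1] 1, (3 / 4 : ℝ) * D 1 < D u :=
    cD.eventually (lt_mem_nhds (by linarith))
  have eF : ∀ᶠ u in 𝓝[Set.Icc (-1 : ℝ) 1] 1, (3 / 4 : ℝ) * F 1 < F u :=
    cF.eventually (lt_mem_nhds (by linarith))
  have e := eD.and eF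
  rw [eventually_nhdsWithin_iff, Metric.eventually_nhds_iff] at e
  obtain ⟨ε, hε, he⟩ := e
  refine ⟨max (1 / 2) (1 - ε), by positivity, max_lt (by norm_num) (by linarith), ?_⟩
  intro u v hu0 hu1 hv0 hv1
  have hu2 : 1 / 2 < u := lt_of_le_of_lt (le_max_left _ _) hu0
  have hv2 : 1 / 2 < v := lt_of_le_of_lt (le_max_left _ _) hv0
  have hu3 : 1 - ε < u := lt_of_le_of_lt (le_max_right _ _) hu0
  have hv3 : 1 - ε < v := lt_of_le_of_lt (le_max_right _ _) hv0
  have hu := he (y := u) (by rw [Real.dist_eq, abs_sub_comm, abs_of_pos (by linarith)]; linarith)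
    ⟨by linarith, hu1.le⟩
  have hv := he (y := v) (by rw [Real.dist_eq, abs_sub_comm, abs_of_pos (by linarith)]; linarith)
    ⟨by linarith, hv1.le⟩
  have hDu : D u ≤ D 1 := D_mono (by linarith) hu1.le le_rfl
  have hFv : F v ≤ F 1 := F_le (by linarith) hv1.le le_rfl
  have hF1' : 0 < F 1 := by linarith
  calc D u * F v ≤ D 1 * F 1 := mul_le_mul hDu hFv (by linarith [F_one_le (u := v) (by
        rw [abs_of_pos (by linarith)]; exact hv1.le)]) hD1.le
    _ < 2 * ((3 / 4 * D 1) * (3 / 4 * F 1)) := by nlinarith [mul_pos hD1 hF1']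
    _ ≤ 2 * (D v * F u) := by
        refine mul_le_mul_of_nonneg_left ?_ (by norm_num)
        exact mul_le_mul hv.1.le hu.2.le (by positivity) (by linarith [hv.1])

/-- a competitor that beats the facet for small `τ` -/
lemma exists_eps : ∃ ε : ℝ, 0 < ε ∧ ε < 1 / 8 ∧ F (1 - ε) * F (3 * ε) < F 1 * F 0 := by
  have h0 : (0 : ℝ) ∈ Set.Icc (-1 : ℝ) 1 := by norm_num
  have hF0 : 1 ≤ F 0 := F_one_le (by norm_num)
  have hF1 : 1 ≤ F 1 := F_one_le (by norm_num)
  have hDh : 0 < D (1 / 2) := D_pos (by norm_num) (by norm_num)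
  set κ := D (1 / 2) * F 0 / (4 * F 1) with hκ
  have hκ0 : 0 < κ := by positivity
  have cD := (continuousOn_D 0 h0)
  have eD : ∀ᶠ u in 𝓝[Set.Icc (-1 : ℝ) 1] 0, D u < κ :=
    cD.eventually (gt_mem_nhds (by rw [D_zero]; exact hκ0))
  rw [eventually_nhdsWithin_iff, Metric.eventually_nhds_iff] at eD
  obtain ⟨δ, hδ, he⟩ := eD
  set ε := min (1 / 16) (δ / 6) with hε
  have hε0 : 0 < ε := by positivity
  have hε1 : ε ≤ 1 / 16 := min_le_left _ _
  have hε2 : ε ≤ δ / 6 := min_le_right _ _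
  refine ⟨ε, hε0, by linarith, ?_⟩
  have hD3 : D (3 * ε) < κ := he (by
    rw [Real.dist_eq, sub_zero, abs_of_pos (by linarith)]; linarith) ⟨by linarith, by linarith⟩
  -- mean value bounds
  have m1 : F 1 - F (1 - ε) ≥ ε * D (1 / 2) := by
    have hc : ContinuousOn F (Set.Icc (1 - ε) 1) :=
      continuousOn_F.mono (Set.Icc_subset_Icc (by linarith) le_rfl)
    obtain ⟨c, hc1, hc2⟩ := exists_hasDerivAt_eq_slope F D (by linarith : 1 - ε < 1) hc
      (fun x hx => hasDerivAt_F ⟨by linarith [hx.1], hx.2⟩)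
    have hDc : D (1 / 2) ≤ D c := D_mono (by norm_num) (by linarith [hc1.1]) hc1.2.le
    have : F 1 - F (1 - ε) = D c * ε := by
      rw [hc2, sub_sub_cancel, div_mul_cancel₀ _ hε0.ne']
    rw [this]; nlinarith
  have m2 : F (3 * ε) - F 0 ≤ 3 * ε * κ := by
    have hc : ContinuousOn F (Set.Icc 0 (3 * ε)) :=
      continuousOn_F.mono (Set.Icc_subset_Icc (by linarith) (by linarith))
    obtain ⟨c, hc1, hc2⟩ := exists_hasDerivAt_eq_slope F D (by linarith : 0 < 3 * ε) hc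
      (fun x hx => hasDerivAt_F ⟨by linarith [hx.1], by linarith [hx.2]⟩)
    have hDc : D c ≤ D (3 * ε) := D_mono hc1.1.le hc1.2.le (by linarith)
    have : F (3 * ε) - F 0 = D c * (3 * ε) := by
      rw [hc2, sub_zero, div_mul_cancel₀ _ (by positivity)]
    rw [this]; nlinarith
  have hF1' : 0 < F 1 := by linarith
  have hκe : κ * (4 * F 1) = D (1 / 2) * F 0 := by rw [hκ]; field_simp
  have h1e : 0 < F (1 - ε) := by
    linarith [F_one_le (u := 1 - ε) (by rw [abs_of_pos (by linarith)]; linarith)]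
  calc F (1 - ε) * F (3 * ε) ≤ F (1 - ε) * (F 0 + 3 * ε * κ) :=
        mul_le_mul_of_nonneg_left (by linarith) h1e.le
    _ ≤ (F 1 - ε * D (1 / 2)) * (F 0 + 3 * ε * κ) :=
        mul_le_mul_of_nonneg_right (by linarith) (by positivity)
    _ = F 1 * F 0 - ε * (D (1 / 2) * F 0) + 3 * ε * (κ * F 1) - ε * D (1 / 2) * (3 * ε * κ) := by
        ring
    _ < F 1 * F 0 := by
        have : κ * F 1 = D (1 / 2) * F 0 / 4 := by linarith
        rw [this]
        have h2 : 0 < ε * (D (1 / 2) * F 0) := by positivity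
        have h3 : 0 < ε * D (1 / 2) * (3 * ε * κ) := by positivity
        nlinarith

end Pool.Agent.TH982.KRW
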