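import Pool.Agent.TH982.KRW.Defs

set_option autoImplicit false

/-!
# Existence and first properties of the inverse correlation length
-/

namespace Pool.Agent.TH982.KRW

open Filter Topology
open scoped ENNReal

/-- The standing assumptions on `ψ`. -/
structure Good (ψ : Sx → ℝ) : Prop where
  nonneg : ∀ x, 0 ≤ J ψ x
  pos : ∀ x, x ≠ 0 → 0 < J ψ x
  one : ∑' x, ENNReal.ofReal (J ψ x) = 1

variable {ψ : Sx → ℝ}

lemma Lt_zero (h : Good ψ) {lam : ℝ} (hl : 0 ≤ lam) : Lt ψ lam (0, 0) = ENNReal.ofReal lam := by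
  unfold Lt
  simp_rw [ex_zero, mul_one, ENNReal.ofReal_mul hl]
  rw [ENNReal.tsum_mul_left, h.one, mul_one]

lemma J_shift (h : Good ψ) {lam : ℝ} (hl : 0 ≤ lam) (z : Sx) :
    ∑' w, ENNReal.ofReal (lam * J ψ (z - w)) = ENNReal.ofReal lam := by
  have e : ∑' w, ENNReal.ofReal (lam * J ψ (z - w)) = ∑' x, ENNReal.ofReal (lam * J ψ x) :=
    (Equiv.subLeft z).tsum_eq (fun x => ENNReal.ofReal (lam * J ψ x))
  rw [e]
  simp_rw [ENNReal.ofReal_mul hl]
  rw [ENNReal.tsum_mul_left, h.one, mul_one]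

/-- bound for `G` -/
noncomputable def Bd (lam : ℝ) : ℝ≥0∞ := (1 - ENNReal.ofReal lam)⁻¹

lemma Bd_ne_top {lam : ℝ} (h1 : lam < 1) : Bd lam ≠ ∞ := by
  unfold Bd
  rw [ENNReal.inv_ne_top]
  exact (tsub_pos_of_lt (by rw [← ENNReal.ofReal_one]; exact (ENNReal.ofReal_lt_ofReal_iff one_pos).2 h1)).ne'

lemma G_le (h : Good ψ) {lam : ℝ} (hl : 0 ≤ lam) (x : Sx) : G ψ lam x ≤ Bd lam := by
  have := ENNReal.le_tsum (f := fun x => G ψ lam x) x
  rw [G_sum, Lt_zero h hl] at this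
  exact this

lemma G_ne_top (h : Good ψ) {lam : ℝ} (hl : 0 ≤ lam) (h1 : lam < 1) (x : Sx) : G ψ lam x ≠ ∞ :=
  ne_top_of_le_ne_top (Bd_ne_top h1) (G_le h hl x)

lemma G_mul (h : Good ψ) {lam : ℝ} (hl : 0 ≤ lam) (h1 : lam < 1) (x z : Sx) :
    G ψ lam x * G ψ lam (z - x) ≤ G ψ lam 0 * G ψ lam z := by
  set B := Bd lam with hB
  have key : ∀ n : ℕ, ∀ z, G ψ lam x * G ψ lam (z - x) ≤
      G ψ lam 0 * G ψ lam z + ENNReal.ofReal lam ^ n * (B * B) := by
    intro n
    induction n with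
    | zero =>
      intro z
      rw [pow_zero, one_mul]
      exact (mul_le_mul' (G_le h hl x) (G_le h hl _)).trans le_add_self
    | succ n ih =>
      intro z
      by_cases hz : z = x
      · subst hz
        rw [sub_self, mul_comm]
        exact le_self_add
      · rw [G_eq ψ lam (z - x), if_neg (sub_ne_zero.2 hz), zero_add,
          ← (Equiv.subRight x).tsum_eq (fun y => G ψ lam y * ENNReal.ofReal (lam * J ψ (z - x - y))),
          ← ENNReal.tsum_mul_left]
        calc ∑' w, G ψ lam x * (G ψ lam ((Equiv.subRight x) w) *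
                ENNReal.ofReal (lam * J ψ (z - x - (Equiv.subRight x) w)))
            ≤ ∑' w, (G ψ lam 0 * G ψ lam w + ENNReal.ofReal lam ^ n * (B * B)) *
                ENNReal.ofReal (lam * J ψ (z - w)) := by
              refine ENNReal.tsum_le_tsum fun w => ?_
              have e : z - x - (Equiv.subRight x) w = z - w := by
                simp only [Equiv.subRight_apply]; abel
              rw [e, ← mul_assoc]
              exact mul_le_mul_left (ih w) _
          _ = G ψ lam 0 * ∑' w, G ψ lam w * ENNReal.ofReal (lam * J ψ (z - w)) +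
                ENNReal.ofReal lam ^ n * (B * B) * ENNReal.ofReal lam := by
              simp_rw [add_mul]
              rw [ENNReal.tsum_add, ENNReal.tsum_mul_left, J_shift h hl, ← ENNReal.tsum_mul_left]
              simp_rw [mul_assoc]
          _ ≤ G ψ lam 0 * G ψ lam z + ENNReal.ofReal lam ^ (n + 1) * (B * B) := by
              refine add_le_add ?_ (le_of_eq (by ring))
              refine mul_le_mul_right ?_ _
              conv_rhs => rw [G_eq ψ lam z]
              exact le_add_self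
  have hlim : Tendsto (fun n : ℕ => G ψ lam 0 * G ψ lam z + ENNReal.ofReal lam ^ n * (B * B)) atTop
      (𝓝 (G ψ lam 0 * G ψ lam z + 0 * (B * B))) := by
    refine Tendsto.add tendsto_const_nhds (ENNReal.Tendsto.mul_const ?_ (Or.inr ?_))
    · exact ENNReal.tendsto_pow_atTop_nhds_zero_of_lt_one
        (by rw [← ENNReal.ofReal_one]; exact (ENNReal.ofReal_lt_ofReal_iff one_pos).2 h1)
    · exact ENNReal.mul_ne_top (Bd_ne_top h1) (Bd_ne_top h1)
  rw [zero_mul, add_zero] at hlim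
  exact ge_of_tendsto' hlim fun n => key n z

/-- real-valued two-point function -/
noncomputable def g (ψ : Sx → ℝ) (lam : ℝ) (x : Sx) : ℝ := (G ψ lam x).toReal

lemma G_pos (h : Good ψ) {lam : ℝ} (hl : 0 < lam) (x : Sx) : 0 < G ψ lam x := by
  by_cases hx : x = 0
  · have : walks ψ lam 0 x ≤ G ψ lam x := ENNReal.le_tsum (f := fun n => walks ψ lam n x) 0
    rw [walks_zero, if_pos hx] at this
    exact lt_of_lt_of_le one_pos this
  · have h1 : walks ψ lam 1 x ≤ G ψ lam x := ENNReal.le_tsum (f := fun n => walks ψ lam n x) 1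
    have h2 : walks ψ lam 0 0 * ENNReal.ofReal (lam * J ψ (x - 0)) ≤ walks ψ lam 1 x := by
      rw [walks_succ]
      exact ENNReal.le_tsum (f := fun y => walks ψ lam 0 y * ENNReal.ofReal (lam * J ψ (x - y))) 0
    rw [walks_zero, if_pos rfl, one_mul, sub_zero] at h2
    exact lt_of_lt_of_le (ENNReal.ofReal_pos.2 (mul_pos hl (h.pos x hx))) (h2.trans h1)

lemma g_pos (h : Good ψ) {lam : ℝ} (hl : 0 < lam) (h1 : lam < 1) (x : Sx) : 0 < g ψ lam x :=
  ENNReal.toReal_pos (G_pos h hl x).ne' (G_ne_top h hl.le h1 x)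

lemma g_mul (h : Good ψ) {lam : ℝ} (hl : 0 < lam) (h1 : lam < 1) (x y : Sx) :
    g ψ lam x * g ψ lam y ≤ g ψ lam 0 * g ψ lam (x + y) := by
  have := G_mul h hl.le h1 x (x + y)
  rw [add_sub_cancel_left] at this
  unfold g
  rw [← ENNReal.toReal_mul, ← ENNReal.toReal_mul]
  exact ENNReal.toReal_mono (ENNReal.mul_ne_top (G_ne_top h hl.le h1 _) (G_ne_top h hl.le h1 _)) this

/-- logarithmic form -/
noncomputable def aa (ψ : Sx → ℝ) (lam : ℝ) (x : Sx) : ℝ :=
  Real.log (g ψ lam 0) - Real.log (g ψ lam x)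

lemma aa_add (h : Good ψ) {lam : ℝ} (hl : 0 < lam) (h1 : lam < 1) (x y : Sx) :
    aa ψ lam (x + y) ≤ aa ψ lam x + aa ψ lam y := by
  have hx := g_pos h hl h1 x
  have hy := g_pos h hl h1 y
  have h0 := g_pos h hl h1 0
  have hxy := g_pos h hl h1 (x + y)
  have := Real.log_le_log (mul_pos hx hy) (g_mul h hl h1 x y)
  rw [Real.log_mul hx.ne' hy.ne', Real.log_mul h0.ne' hxy.ne'] at this
  unfold aa
  linarith

lemma floor_add_mem (a b : ℝ) :
    ⌊a + b + 1 / 2⌋ - ⌊a + 1 / 2⌋ - ⌊b + 1 / 2⌋ ∈ Finset.Icc (-1 : ℤ) 1 := by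
  rw [Finset.mem_Icc]
  have h1 := Int.floor_le (a + b + 1 / 2)
  have h2 := Int.lt_floor_add_one (a + b + 1 / 2)
  have h3 := Int.floor_le (a + 1 / 2)
  have h4 := Int.lt_floor_add_one (a + 1 / 2)
  have h5 := Int.floor_le (b + 1 / 2)
  have h6 := Int.lt_floor_add_one (b + 1 / 2)
  constructor
  · have : (-2 : ℝ) < ((⌊a + b + 1 / 2⌋ - ⌊a + 1 / 2⌋ - ⌊b + 1 / 2⌋ : ℤ) : ℝ) := by
      push_cast; linarith
    have : (-2 : ℤ) < ⌊a + b + 1 / 2⌋ - ⌊a + 1 / 2⌋ - ⌊b + 1 / 2⌋ := by exact_mod_cast this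
    omega
  · have : ((⌊a + b + 1 / 2⌋ - ⌊a + 1 / 2⌋ - ⌊b + 1 / 2⌋ : ℤ) : ℝ) < 2 := by
      push_cast; linarith
    have : ⌊a + b + 1 / 2⌋ - ⌊a + 1 / 2⌋ - ⌊b + 1 / 2⌋ < (2 : ℤ) := by exact_mod_cast this
    omega

lemma exists_lim (h : Good ψ) {lam : ℝ} (hl : 0 < lam) (h1 : lam < 1) (s : ℝ × ℝ) :
    ∃ L : ℝ, Tendsto (fun n : ℕ => -Real.log (G ψ lam (pt s n)).toReal / n) atTop (𝓝 L) := by
  set S : Finset Sx := Finset.Icc (-1 : ℤ) 1 ×ˢ Finset.Icc (-1 : ℤ) 1 with hS
  set K : ℝ := ∑ y ∈ S, |aa ψ lam y| with hK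
  have hK' : ∀ y ∈ S, aa ψ lam y ≤ K := fun y hy =>
    (le_abs_self _).trans (Finset.single_le_sum (f := fun y => |aa ψ lam y|)
      (fun _ _ => abs_nonneg _) hy)
  have hsub : Subadditive fun n : ℕ => aa ψ lam (pt s n) + K := by
    intro m n
    set y : Sx := pt s (m + n) - pt s m - pt s n with hy
    have hyS : y ∈ S := by
      rw [hS, Finset.mem_product]
      constructor
      · have := floor_add_mem ((m : ℝ) * s.1) ((n : ℝ) * s.1)
        rw [← add_mul] at this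
        simpa [hy, pt] using this
      · have := floor_add_mem ((m : ℝ) * s.2) ((n : ℝ) * s.2)
        rw [← add_mul] at this
        simpa [hy, pt] using this
    have e : pt s (m + n) = pt s m + pt s n + y := by rw [hy]; abel
    have h2 := aa_add h hl h1 (pt s m + pt s n) y
    have h3 := aa_add h hl h1 (pt s m) (pt s n)
    have h4 := hK' y hyS
    simp only
    rw [e]
    linarith
  set C : ℝ := |Real.log (g ψ lam 0)| + |Real.log (Bd lam).toReal| with hC
  have hlow : ∀ x, -C ≤ aa ψ lam x := by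
    intro x
    have h2 : Real.log (g ψ lam x) ≤ Real.log (Bd lam).toReal :=
      Real.log_le_log (g_pos h hl h1 x) (ENNReal.toReal_mono (Bd_ne_top h1) (G_le h hl.le x))
    unfold aa
    have h3 := neg_abs_le (Real.log (g ψ lam 0))
    have h4 := le_abs_self (Real.log (Bd lam).toReal)
    rw [hC]; linarith
  have hK0 : 0 ≤ K := Finset.sum_nonneg fun _ _ => abs_nonneg _
  have hC0 : 0 ≤ C := by positivity
  have hbdd : BddBelow (Set.range fun n : ℕ => (aa ψ lam (pt s n) + K) / n) := by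
    refine ⟨-C, ?_⟩
    rintro _ ⟨n, rfl⟩
    rcases Nat.eq_zero_or_pos n with hn | hn
    · subst hn; simp only [Nat.cast_zero, div_zero]; linarith
    · have hn' : (1 : ℝ) ≤ n := by exact_mod_cast hn
      have h5 := hlow (pt s n)
      simp only
      rw [le_div_iff₀ (by linarith)]
      nlinarith
  have hlim := hsub.tendsto_lim hbdd
  refine ⟨hsub.lim, ?_⟩
  have h0 : Tendsto (fun n : ℕ => (K + Real.log (g ψ lam 0)) / (n : ℝ)) atTop (𝓝 0) :=
    tendsto_const_div_atTop_nhds_zero_nat _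
  have h6 := hlim.sub h0
  rw [sub_zero] at h6
  refine h6.congr fun n => ?_
  unfold aa g
  rw [← sub_div]
  congr 1; ring

theorem nu_tendsto (h : Good ψ) {lam : ℝ} (hl : 0 < lam) (h1 : lam < 1) (s : ℝ × ℝ) :
    Tendsto (fun n : ℕ => -Real.log (G ψ lam (pt s n)).toReal / n) atTop (𝓝 (nu ψ s lam)) :=
  tendsto_nhds_limUnder (exists_lim h hl h1 s)

lemma pt_bounds (s : ℝ × ℝ) (n : ℕ) :
    |((pt s n).1 : ℝ) - n * s.1| ≤ 1 / 2 ∧ |((pt s n).2 : ℝ) - n * s.2| ≤ 1 / 2 := by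
  unfold pt
  simp only
  constructor
  · have h1 := Int.floor_le ((n : ℝ) * s.1 + 1 / 2)
    have h2 := Int.lt_floor_add_one ((n : ℝ) * s.1 + 1 / 2)
    rw [abs_le]; constructor <;> linarith
  · have h1 := Int.floor_le ((n : ℝ) * s.2 + 1 / 2)
    have h2 := Int.lt_floor_add_one ((n : ℝ) * s.2 + 1 / 2)
    rw [abs_le]; constructor <;> linarith

/-- Lower bound for the inverse correlation length. -/
theorem nu_ge (h : Good ψ) {lam : ℝ} (hl : 0 < lam) (h1 : lam < 1) (s t : ℝ × ℝ)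
    (ht : Lt ψ lam t < 1) : t.1 * s.1 + t.2 * s.2 ≤ nu ψ s lam := by
  set C : ℝ := Real.log (1 - Lt ψ lam t)⁻¹.toReal with hC
  have hfin : (1 - Lt ψ lam t)⁻¹ ≠ ∞ := by
    rw [ENNReal.inv_ne_top]; exact (tsub_pos_of_lt ht).ne'
  have key : ∀ z : Sx, t.1 * z.1 + t.2 * z.2 - C ≤ -Real.log (G ψ lam z).toReal := by
    intro z
    have h2 : G ψ lam z * ex t z ≤ (1 - Lt ψ lam t)⁻¹ := by
      rw [← G_gf]
      exact ENNReal.le_tsum (f := fun z => G ψ lam z * ex t z) z
    have h3 := ENNReal.toReal_mono hfin h2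
    rw [ENNReal.toReal_mul] at h3
    have hg := g_pos h hl h1 z
    unfold g at hg
    have he : (ex t z).toReal = Real.exp (t.1 * z.1 + t.2 * z.2) :=
      ENNReal.toReal_ofReal (Real.exp_pos _).le
    rw [he] at h3
    have h4 := Real.log_le_log (mul_pos hg (Real.exp_pos _)) h3
    rw [Real.log_mul hg.ne' (Real.exp_pos _).ne', Real.log_exp] at h4
    linarith
  have hlim := nu_tendsto h hl h1 s
  set D : ℝ := (|t.1| + |t.2|) / 2 + C with hD
  have h0 : Tendsto (fun n : ℕ => (t.1 * s.1 + t.2 * s.2) - D / (n : ℝ)) atTop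
      (𝓝 ((t.1 * s.1 + t.2 * s.2) - 0)) :=
    tendsto_const_nhds.sub (tendsto_const_div_atTop_nhds_zero_nat _)
  rw [sub_zero] at h0
  refine le_of_tendsto_of_tendsto h0 hlim ?_
  filter_upwards [eventually_ge_atTop 1] with n hn
  have hn' : (0 : ℝ) < n := by exact_mod_cast hn
  rw [le_div_iff₀ hn', sub_mul, div_mul_cancel₀ _ hn'.ne']
  have h5 := key (pt s n)
  obtain ⟨b1, b2⟩ := pt_bounds s n
  have h6 : t.1 * (n * s.1) - |t.1| / 2 ≤ t.1 * ((pt s n).1 : ℝ) := by
    have : |t.1 * (((pt s n).1 : ℝ) - n * s.1)| ≤ |t.1| * (1 / 2) := by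
      rw [abs_mul]; exact mul_le_mul_of_nonneg_left b1 (abs_nonneg _)
    have := (abs_le.1 this).1
    linarith
  have h7 : t.2 * (n * s.2) - |t.2| / 2 ≤ t.2 * ((pt s n).2 : ℝ) := by
    have : |t.2 * (((pt s n).2 : ℝ) - n * s.2)| ≤ |t.2| * (1 / 2) := by
      rw [abs_mul]; exact mul_le_mul_of_nonneg_left b2 (abs_nonneg _)
    have := (abs_le.1 this).1
    linarith
  rw [hD]
  linarith

lemma walks_mono {lam lam' : ℝ} (h : Good ψ) (hll : lam ≤ lam') (n : ℕ) (x : Sx) :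
    walks ψ lam n x ≤ walks ψ lam' n x := by
  induction n generalizing x with
  | zero => rw [walks_zero, walks_zero]
  | succ n ih =>
    rw [walks_succ, walks_succ]
    refine ENNReal.tsum_le_tsum fun y => mul_le_mul' (ih y) (ENNReal.ofReal_le_ofReal ?_)
    exact mul_le_mul_of_nonneg_right hll (h.nonneg _)

/-- `ν_s` is nonincreasing. -/
theorem nu_anti (h : Good ψ) {lam lam' : ℝ} (hl : 0 < lam) (hll : lam ≤ lam') (h1 : lam' < 1)
    (s : ℝ × ℝ) : nu ψ s lam' ≤ nu ψ s lam := by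
  refine le_of_tendsto_of_tendsto' (nu_tendsto h (hl.trans_le hll) h1 s)
    (nu_tendsto h hl (hll.trans_lt h1) s) fun n => ?_
  refine div_le_div_of_nonneg_right ?_ (Nat.cast_nonneg n)
  rw [neg_le_neg_iff]
  refine Real.log_le_log (g_pos h hl (hll.trans_lt h1) _) ?_
  refine ENNReal.toReal_mono (G_ne_top h (hl.trans_le hll).le h1 _) ?_
  exact ENNReal.tsum_le_tsum fun n => walks_mono h hll n _

/-- `λ_c = 1`. -/
theorem lamC_eq (h : Good ψ) : lamC ψ = 1 := by
  have hset : {lam : ℝ | 0 ≤ lam ∧ ∑' x, G ψ lam x < ∞} = Set.Ico 0 1 := by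
    ext lam
    simp only [Set.mem_ofPred_eq, Set.mem_Ico]
    refine and_congr_right fun hl => ?_
    rw [G_sum, Lt_zero h hl, lt_top_iff_ne_top, ENNReal.inv_ne_top, ← pos_iff_ne_zero,
      tsub_pos_iff_lt, ← ENNReal.ofReal_one, ENNReal.ofReal_lt_ofReal_iff one_pos]
  unfold lamC
  rw [hset, csSup_Ico one_pos]

end Pool.Agent.TH982.KRW
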