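import Pool.Agent.TH982.KRW.Psi

set_option autoImplicit false

/-!
# Large deviation lower bound for the two-point function (typical walk followed by one big jump)
-/

namespace Pool.Agent.TH982.KRW

open Filter Topology
open scoped ENNReal

lemma eventually_lt_one {h : ℝ → ℝ} {d : ℝ} (hd : HasDerivAt h d 0) (h0 : h 0 = 1) (hneg : d < 0) :
    ∀ᶠ θ in 𝓝[>] (0 : ℝ), h θ < 1 := by
  rw [hasDerivAt_iff_tendsto_slope] at hd
  have h1 : ∀ᶠ θ in 𝓝[≠] (0 : ℝ), slope h 0 θ < 0 := hd.eventually (gt_mem_nhds hneg)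
  have h2 : ∀ᶠ θ in 𝓝[>] (0 : ℝ), slope h 0 θ < 0 :=
    h1.filter_mono (nhdsWithin_mono _ fun x hx => ne_of_gt hx)
  filter_upwards [h2, self_mem_nhdsWithin] with θ hθ hpos
  rw [slope_def_field, h0, sub_zero] at hθ
  have hpos' : (0 : ℝ) < θ := hpos
  by_contra hc
  push Not at hc
  have : 0 ≤ (h θ - 1) / θ := div_nonneg (by linarith) hpos'.le
  linarith

/-- drift in the first coordinate -/
noncomputable def m1 (lam : ℝ) (t : ℝ × ℝ) : ℝ := lam * cc * (D t.1 * F t.2)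
/-- drift in the second coordinate -/
noncomputable def m2 (lam : ℝ) (t : ℝ × ℝ) : ℝ := lam * cc * (F t.1 * D t.2)

lemma Jh_nonneg {t : ℝ × ℝ} (h1 : |t.1| ≤ 1) (h2 : |t.2| ≤ 1) : 0 ≤ Jh t := by
  unfold Jh
  have a1 := F_one_le h1
  have a2 := F_one_le h2
  exact mul_nonneg cc_pos.le (by nlinarith)

lemma chern {lam : ℝ} (hl : 0 < lam) {t : ℝ × ℝ} (ht1 : 0 < t.1 ∧ t.1 < 1) (ht2 : 0 < t.2 ∧ t.2 < 1)
    (hone : lam * Jh t = 1) (w : ℝ × ℝ) {η : ℝ} (hη : 0 < η) :
    ∃ r : ℝ, 0 ≤ r ∧ r < 1 ∧ ∀ N : ℕ,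
      ∑' x : Sx, (if (N : ℝ) * ((w.1 * m1 lam t + w.2 * m2 lam t) + η) ≤ w.1 * x.1 + w.2 * x.2 then
        walks psi lam N x * ex t x else 0) ≤ ENNReal.ofReal r ^ N := by
  set μ := (w.1 * m1 lam t + w.2 * m2 lam t) + η with hμ
  let tw : ℝ → ℝ × ℝ := fun θ => (t.1 + θ * w.1, t.2 + θ * w.2)
  let h : ℝ → ℝ := fun θ => (lam * Jh (tw θ)) * Real.exp (-(θ * μ))
  have e1 : HasDerivAt (fun θ : ℝ => t.1 + θ * w.1) w.1 0 := by
    simpa using ((hasDerivAt_id (0 : ℝ)).mul_const w.1).const_add t.1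
  have e2 : HasDerivAt (fun θ : ℝ => t.2 + θ * w.2) w.2 0 := by
    simpa using ((hasDerivAt_id (0 : ℝ)).mul_const w.2).const_add t.2
  have f1 : HasDerivAt (fun θ : ℝ => F (t.1 + θ * w.1)) (D t.1 * w.1) 0 := by
    have hF : HasDerivAt F (D t.1) (t.1 + 0 * w.1) := by
      rw [zero_mul, add_zero]; exact hasDerivAt_F ⟨by linarith [ht1.1], ht1.2⟩
    exact hF.comp (0 : ℝ) e1
  have f2 : HasDerivAt (fun θ : ℝ => F (t.2 + θ * w.2)) (D t.2 * w.2) 0 := by
    have hF : HasDerivAt F (D t.2) (t.2 + 0 * w.2) := by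
      rw [zero_mul, add_zero]; exact hasDerivAt_F ⟨by linarith [ht2.1], ht2.2⟩
    exact hF.comp (0 : ℝ) e2
  have e3 : HasDerivAt (fun θ : ℝ => Real.exp (-(θ * μ))) (-μ) 0 := by
    have := (((hasDerivAt_id (0 : ℝ)).mul_const μ).neg).exp
    simpa using this
  have hJ : HasDerivAt (fun θ : ℝ => lam * Jh (tw θ))
      (lam * (cc * (D t.1 * w.1 * F t.2 + F t.1 * (D t.2 * w.2)))) 0 := by
    have := ((((f1.mul f2).sub_const 1).const_mul cc).const_mul lam)
    simpa [Jh, tw] using this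
  have hd : HasDerivAt h (-η) 0 := by
    have := hJ.mul e3
    refine this.congr_deriv ?_
    have h0 : lam * Jh (tw 0) = 1 := by
      have : tw 0 = t := by simp [tw]
      rw [this, hone]
    simp only [h0, zero_mul, neg_zero, Real.exp_zero, mul_one, one_mul, hμ, m1, m2]
    ring
  have h0 : h 0 = 1 := by
    have : tw 0 = t := by simp [tw]
    simp only [h, this, hone]
    simp
  have ev := eventually_lt_one hd h0 (by linarith)
  have ev1 : ∀ᶠ θ in 𝓝[>] (0 : ℝ), |t.1 + θ * w.1| < 1 := by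
    refine (Tendsto.eventually (f := fun θ : ℝ => |t.1 + θ * w.1|) (l₁ := 𝓝 0) (l₂ := 𝓝 |t.1|) ?_
      (gt_mem_nhds (by rw [abs_of_pos ht1.1]; exact ht1.2))).filter_mono nhdsWithin_le_nhds
    have : ContinuousAt (fun θ : ℝ => |t.1 + θ * w.1|) 0 := by fun_prop
    simpa [ContinuousAt] using this
  have ev2 : ∀ᶠ θ in 𝓝[>] (0 : ℝ), |t.2 + θ * w.2| < 1 := by
    refine (Tendsto.eventually (f := fun θ : ℝ => |t.2 + θ * w.2|) (l₁ := 𝓝 0) (l₂ := 𝓝 |t.2|) ?_
      (gt_mem_nhds (by rw [abs_of_pos ht2.1]; exact ht2.2))).filter_mono nhdsWithin_le_nhds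
    have : ContinuousAt (fun θ : ℝ => |t.2 + θ * w.2|) 0 := by fun_prop
    simpa [ContinuousAt] using this
  obtain ⟨θ, hθ1, hθ2, hθ3, hθ0⟩ := (ev.and (ev1.and (ev2.and self_mem_nhdsWithin))).exists
  have hθ0' : (0 : ℝ) < θ := hθ0
  have hJn : 0 ≤ lam * Jh (tw θ) := mul_nonneg hl.le (Jh_nonneg hθ2.le hθ3.le)
  refine ⟨h θ, mul_nonneg hJn (Real.exp_pos _).le, hθ1, fun N => ?_⟩
  have hgf := walks_gf psi lam (tw θ) N
  rw [Lt_eq hl.le hθ2.le hθ3.le] at hgf
  calc ∑' x : Sx, (if (N : ℝ) * μ ≤ w.1 * x.1 + w.2 * x.2 then walks psi lam N x * ex t x else 0)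
      ≤ ∑' x : Sx, (walks psi lam N x * ex (tw θ) x) * ENNReal.ofReal (Real.exp (-(θ * (N * μ)))) := by
        refine ENNReal.tsum_le_tsum fun x => ?_
        split_ifs with hx
        · rw [mul_assoc]
          refine mul_le_mul' le_rfl ?_
          unfold ex
          rw [← ENNReal.ofReal_mul (Real.exp_pos _).le, ← Real.exp_add]
          refine ENNReal.ofReal_le_ofReal (Real.exp_le_exp.2 ?_)
          have : 0 ≤ θ * ((w.1 * x.1 + w.2 * x.2) - N * μ) := mul_nonneg hθ0'.le (by linarith)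
          simp only [tw]
          nlinarith
        · exact zero_le
    _ = ENNReal.ofReal (lam * Jh (tw θ)) ^ N * ENNReal.ofReal (Real.exp (-(θ * (N * μ)))) := by
        rw [ENNReal.tsum_mul_right, hgf]
    _ = ENNReal.ofReal (h θ) ^ N := by
        simp only [h]
        rw [ENNReal.ofReal_mul hJn, mul_pow, ← ENNReal.ofReal_pow (Real.exp_pos _).le,
          ← Real.exp_nat_mul]
        congr 3
        ring
    _ ≤ _ := le_rfl

/-- There is a not too unlikely endpoint close to the drift line. -/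
lemma box {lam : ℝ} (hl : 0 < lam) {t : ℝ × ℝ} (ht1 : 0 < t.1 ∧ t.1 < 1) (ht2 : 0 < t.2 ∧ t.2 < 1)
    (hone : lam * Jh t = 1) {η : ℝ} (hη : 0 < η) :
    ∃ N0 : ℕ, ∀ N ≥ N0, ∃ x : Sx, |(x.1 : ℝ) - N * m1 lam t| ≤ N * η ∧
      |(x.2 : ℝ) - N * m2 lam t| ≤ N * η ∧
      ENNReal.ofReal (1 / (2 * (2 * (⌈(N : ℝ) * (m1 lam t + m2 lam t + η)⌉₊ : ℝ) + 1) ^ 2)) ≤
        walks psi lam N x * ex t x := by
  obtain ⟨r1, r10, r11, hr1⟩ := chern hl ht1 ht2 hone (1, 0) hη
  obtain ⟨r2, r20, r21, hr2⟩ := chern hl ht1 ht2 hone (-1, 0) hη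
  obtain ⟨r3, r30, r31, hr3⟩ := chern hl ht1 ht2 hone (0, 1) hη
  obtain ⟨r4, r40, r41, hr4⟩ := chern hl ht1 ht2 hone (0, -1) hη
  have hm1 : 0 < m1 lam t := mul_pos (mul_pos hl cc_pos) (mul_pos (D_pos ht1.1 ht1.2.le)
    (by linarith [F_one_le (u := t.2) (by rw [abs_of_pos ht2.1]; exact ht2.2.le)]))
  have hm2 : 0 < m2 lam t := mul_pos (mul_pos hl cc_pos) (mul_pos
    (by linarith [F_one_le (u := t.1) (by rw [abs_of_pos ht1.1]; exact ht1.2.le)])
    (D_pos ht2.1 ht2.2.le))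
  have hz : ∀ r : ℝ, 0 ≤ r → r < 1 → ∀ᶠ N : ℕ in atTop, r ^ N < 1 / 8 := fun r h0 h1 =>
    (tendsto_pow_atTop_nhds_zero_of_lt_one h0 h1).eventually (gt_mem_nhds (by norm_num))
  have hev := ((hz r1 r10 r11).and ((hz r2 r20 r21).and ((hz r3 r30 r31).and (hz r4 r40 r41))))
  obtain ⟨N0, hN0⟩ := eventually_atTop.1 hev
  refine ⟨N0, fun N hN => ?_⟩
  obtain ⟨k1, k2, k3, k4⟩ := hN0 N hN
  set R : ℕ := ⌈(N : ℝ) * (m1 lam t + m2 lam t + η)⌉₊ with hR
  set S : Finset Sx := Finset.Icc (-(R : ℤ)) R ×ˢ Finset.Icc (-(R : ℤ)) R with hS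
  have hcard : (S.card : ℝ) = (2 * (R : ℝ) + 1) ^ 2 := by
    rw [hS, Finset.card_product, Int.card_Icc]
    have : ((R : ℤ) + 1 - -(R : ℤ)).toNat = 2 * R + 1 := by omega
    rw [this]; push_cast; ring
  by_contra hcon
  push Not at hcon
  set c : ℝ := 1 / (2 * (2 * (R : ℝ) + 1) ^ 2) with hc
  have hc0 : 0 < c := by positivity
  set f : Sx → ℝ≥0∞ := fun x => walks psi lam N x * ex t x with hf
  have htot : ∑' x, f x = 1 := by
    rw [hf, walks_gf, Lt_eq hl.le (by rw [abs_of_pos ht1.1]; exact ht1.2.le)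
      (by rw [abs_of_pos ht2.1]; exact ht2.2.le), hone]
    simp
  let H : ℝ × ℝ → Sx → ℝ≥0∞ := fun w x =>
    if (N : ℝ) * ((w.1 * m1 lam t + w.2 * m2 lam t) + η) ≤ w.1 * x.1 + w.2 * x.2 then f x else 0
  have hpt : ∀ x, f x ≤ (if x ∈ S then ENNReal.ofReal c else 0) +
      (H (1, 0) x + (H (-1, 0) x + (H (0, 1) x + H (0, -1) x))) := by
    intro x
    by_cases c1 : (N : ℝ) * (m1 lam t + η) ≤ x.1
    · have : H (1, 0) x = f x := by
        simp only [H]; rw [if_pos]; linarith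
      rw [this]
      exact le_add_left le_self_add
    by_cases c2 : (N : ℝ) * (-m1 lam t + η) ≤ -x.1
    · have : H (-1, 0) x = f x := by
        simp only [H]; rw [if_pos]; linarith
      rw [this]
      exact le_add_left (le_add_left le_self_add)
    by_cases c3 : (N : ℝ) * (m2 lam t + η) ≤ x.2
    · have : H (0, 1) x = f x := by
        simp only [H]; rw [if_pos]; linarith
      rw [this]
      exact le_add_left (le_add_left (le_add_left le_self_add))
    by_cases c4 : (N : ℝ) * (-m2 lam t + η) ≤ -x.2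
    · have : H (0, -1) x = f x := by
        simp only [H]; rw [if_pos]; linarith
      rw [this]
      exact le_add_left (le_add_left (le_add_left le_add_self))
    push Not at c1 c2 c3 c4
    have b1 : |(x.1 : ℝ) - N * m1 lam t| ≤ N * η := by rw [abs_le]; constructor <;> linarith
    have b2 : |(x.2 : ℝ) - N * m2 lam t| ≤ N * η := by rw [abs_le]; constructor <;> linarith
    have hlt := hcon x b1 b2
    have hNn : (0 : ℝ) ≤ N := N.cast_nonneg
    have hRle : (N : ℝ) * (m1 lam t + m2 lam t + η) ≤ R := Nat.le_ceil _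
    have p1 : 0 ≤ (N : ℝ) * m1 lam t := mul_nonneg hNn hm1.le
    have p2 : 0 ≤ (N : ℝ) * m2 lam t := mul_nonneg hNn hm2.le
    have hxS : x ∈ S := by
      rw [hS, Finset.mem_product, Finset.mem_Icc, Finset.mem_Icc, ← abs_le, ← abs_le]
      rw [abs_le] at b1 b2
      constructor
      · have : |(x.1 : ℝ)| ≤ R := by
          rw [abs_le]; constructor <;> linarith [b1.1, b1.2]
        exact_mod_cast this
      · have : |(x.2 : ℝ)| ≤ R := by
          rw [abs_le]; constructor <;> linarith [b2.1, b2.2]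
        exact_mod_cast this
    rw [if_pos hxS]
    exact hlt.le.trans le_self_add
  have hsum : ∑' x, f x ≤ ENNReal.ofReal (1 / 2) + (ENNReal.ofReal r1 ^ N + (ENNReal.ofReal r2 ^ N +
      (ENNReal.ofReal r3 ^ N + ENNReal.ofReal r4 ^ N))) := by
    refine (ENNReal.tsum_le_tsum hpt).trans ?_
    rw [ENNReal.tsum_add, ENNReal.tsum_add, ENNReal.tsum_add, ENNReal.tsum_add]
    refine add_le_add ?_ (add_le_add (hr1 N) (add_le_add (hr2 N) (add_le_add (hr3 N) (hr4 N))))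
    rw [tsum_eq_sum (s := S) (fun x hx => by rw [if_neg hx])]
    rw [Finset.sum_congr rfl (fun x hx => if_pos hx), Finset.sum_const, nsmul_eq_mul,
      ← ENNReal.ofReal_natCast, ← ENNReal.ofReal_mul (by positivity), hcard, hc]
    refine ENNReal.ofReal_le_ofReal (le_of_eq ?_)
    field_simp
  rw [htot, ← ENNReal.ofReal_pow r10, ← ENNReal.ofReal_pow r20, ← ENNReal.ofReal_pow r30,
    ← ENNReal.ofReal_pow r40, ← ENNReal.ofReal_add (by positivity) (by positivity),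
    ← ENNReal.ofReal_add (by positivity) (by positivity),
    ← ENNReal.ofReal_add (by positivity) (by positivity),
    ← ENNReal.ofReal_add (by norm_num) (by positivity), ← ENNReal.ofReal_one,
    ENNReal.ofReal_le_ofReal_iff (by positivity)] at hsum
  linarith

end Pool.Agent.TH982.KRW
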