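import Pool.Agent.TH982.KRW.Up

set_option autoImplicit false

/-!
# The inverse correlation length is not analytic where the maximiser reaches the facet
-/

namespace Pool.Agent.TH982.KRW

open Filter Topology
open scoped ENNReal

/-- the direction `(2,1)/√5` -/
noncomputable def s0 : ℝ × ℝ := (2 / √5, 1 / √5)

lemma s5 : 0 < √(5 : ℝ) := Real.sqrt_pos.2 (by norm_num)

lemma s0_unit : s0.1 ^ 2 + s0.2 ^ 2 = 1 := by
  unfold s0
  simp only [div_pow, Real.sq_sqrt (show (0 : ℝ) ≤ 5 by norm_num)]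
  norm_num

lemma s0_2pos : 0 < s0.2 := by unfold s0; exact div_pos one_pos s5
lemma s0_1eq : s0.1 = 2 * s0.2 := by unfold s0; simp only; ring

/-- parametrisation of `λ` by the point `(1,τ)` of the facet -/
noncomputable def Lam (τ : ℝ) : ℝ := 1 / Jh (1, τ)

lemma Jh_lt {a b c d : ℝ} (ha : 0 ≤ a) (hab : a ≤ b) (hb : b ≤ 1) (hc : 0 ≤ c) (hcd : c < d)
    (hd : d ≤ 1) : Jh (a, c) < Jh (b, d) := by
  unfold Jh
  simp only
  have h1 := F_le ha hab hb
  have h2 := F_lt hc hcd hd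
  have h3 := F_one_le (u := a) (by rw [abs_of_nonneg ha]; linarith)
  have h4 := F_one_le (u := d) (by rw [abs_of_nonneg (by linarith)]; exact hd)
  refine mul_lt_mul_of_pos_left ?_ cc_pos
  nlinarith

lemma Jh_comm (a b : ℝ) : Jh (a, b) = Jh (b, a) := by unfold Jh; simp only; ring

lemma Jh_one_gt {τ : ℝ} (h0 : 0 ≤ τ) (h1 : τ ≤ 1) : 1 < Jh (1, τ) := by
  have h2 : Jh (0, 0) < Jh (τ, 1) := Jh_lt le_rfl h0 h1 le_rfl one_pos le_rfl
  rw [Jh_zero, Jh_comm τ 1] at h2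
  exact h2

lemma Lam_pos {τ : ℝ} (h0 : 0 ≤ τ) (h1 : τ ≤ 1) : 0 < Lam τ := by
  unfold Lam
  exact div_pos one_pos (by linarith [Jh_one_gt h0 h1])

lemma Lam_lt_one {τ : ℝ} (h0 : 0 ≤ τ) (h1 : τ ≤ 1) : Lam τ < 1 := by
  unfold Lam
  rw [div_lt_one (by linarith [Jh_one_gt h0 h1])]
  exact Jh_one_gt h0 h1

lemma Lam_mul {τ : ℝ} (h0 : 0 ≤ τ) (h1 : τ ≤ 1) : Lam τ * Jh (1, τ) = 1 := by
  unfold Lam
  have := Jh_one_gt h0 h1
  field_simp

lemma Lam_lt {τ τ' : ℝ} (h0 : 0 ≤ τ) (h : τ < τ') (h1 : τ' ≤ 1) : Lam τ' < Lam τ := by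
  unfold Lam
  have := Jh_one_gt h0 (by linarith)
  exact one_div_lt_one_div_of_lt (by linarith) (Jh_lt (by norm_num) le_rfl le_rfl h0 h h1)

lemma Lt_lt_one {lam : ℝ} (hl : 0 ≤ lam) {t : ℝ × ℝ} (h1 : |t.1| ≤ 1) (h2 : |t.2| ≤ 1)
    (h : lam * Jh t < 1) : Lt psi lam t < 1 := by
  rw [Lt_eq hl h1 h2, ← ENNReal.ofReal_one]
  exact (ENNReal.ofReal_lt_ofReal_iff one_pos).2 h

/-- lower bound by the facet point -/
lemma nu_ge_facet {τ : ℝ} (h0 : 0 < τ) (h1 : τ < 1) : s0.1 + τ * s0.2 ≤ nu psi s0 (Lam τ) := by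
  have hs1 : 0 < s0.1 := by rw [s0_1eq]; linarith [s0_2pos]
  refine le_of_forall_pos_lt_add fun ε hε => ?_
  set δ : ℝ := min (τ / 2) (ε / (2 * (s0.1 + s0.2))) with hδ
  have hs : 0 < s0.1 + s0.2 := by linarith [s0_2pos]
  have hδ0 : 0 < δ := by positivity
  have hδ1 : δ ≤ τ / 2 := min_le_left _ _
  have hδ2 : δ * (s0.1 + s0.2) ≤ ε / 2 := by
    calc δ * (s0.1 + s0.2) ≤ ε / (2 * (s0.1 + s0.2)) * (s0.1 + s0.2) :=
          mul_le_mul_of_nonneg_right (min_le_right _ _) hs.le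
      _ = ε / 2 := by field_simp
  have hlt : Jh (1 - δ, τ - δ) < Jh (1, τ) :=
    Jh_lt (by linarith) (by linarith) le_rfl (by linarith) (by linarith) h1.le
  have hL := Lam_pos h0.le h1.le
  have h := nu_ge good_psi hL (Lam_lt_one h0.le h1.le) s0 (1 - δ, τ - δ)
    (Lt_lt_one hL.le (by rw [abs_of_pos (by simp only; linarith)]; simp only; linarith)
      (by rw [abs_of_pos (by simp only; linarith)]; simp only; linarith)
      (lt_of_lt_of_eq (mul_lt_mul_of_pos_left hlt hL) (Lam_mul h0.le h1.le)))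
  simp only at h
  nlinarith

/-- Upper bound by the facet point, close to saturation. -/
lemma nu_le_facet {u0 : ℝ} (hu0 : 0 < u0)
    (hu : ∀ u v : ℝ, u0 < u → u < 1 → u0 < v → v < 1 → D u * F v < 2 * (D v * F u))
    {τ : ℝ} (h0 : u0 < τ) (h1 : τ < 1) : nu psi s0 (Lam τ) ≤ s0.1 + τ * s0.2 := by
  have hτ0 : 0 < τ := hu0.trans h0
  have hL := Lam_pos hτ0.le h1.le
  refine le_of_forall_pos_le_add fun ε hε => ?_
  have hs2 := s0_2pos
  set τ' : ℝ := min (τ + ε / s0.2) ((1 + τ) / 2) with hτ'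
  have hτ1 : τ < τ' := lt_min (by linarith [div_pos hε hs2]) (by linarith)
  have hτ2 : τ' < 1 := lt_of_le_of_lt (min_le_right _ _) (by linarith)
  have hτ3 : τ' ≤ τ + ε / s0.2 := min_le_left _ _
  have hF1 : 1 ≤ F 1 := F_one_le (by norm_num)
  have hFτ : 1 ≤ F τ := F_one_le (by rw [abs_of_pos hτ0]; exact h1.le)
  have hFτ' : F τ < F τ' := F_lt hτ0.le hτ1 hτ2.le
  have hFu0 : F u0 < F 1 := F_lt hu0.le (h0.trans h1) le_rfl
  have hval : F 1 * F τ / F τ' < F 1 := by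
    rw [div_lt_iff₀ (by linarith)]
    exact mul_lt_mul_of_pos_left hFτ' (by linarith)
  -- choose `t1`
  have hcont : ContinuousOn F (Set.Icc u0 1) :=
    continuousOn_F.mono (Set.Icc_subset_Icc (by linarith) le_rfl)
  obtain ⟨y, hy1, hy2⟩ := exists_between (max_lt hFu0 hval)
  obtain ⟨t1, ht1, ht1F⟩ := intermediate_value_Ioo (h0.trans h1).le hcont
    ⟨lt_of_le_of_lt (le_max_left _ _) hy1, hy2⟩
  have hFt1 : F 1 * F τ / F τ' < F t1 := by
    rw [ht1F]; exact lt_of_le_of_lt (le_max_right _ _) hy1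
  have hFt1' : F t1 < F 1 := by rw [ht1F]; exact hy2
  have hFt1p : 1 ≤ F t1 := F_one_le (by
    rw [abs_of_pos (hu0.trans ht1.1)]; exact ht1.2.le)
  have hcont2 : ContinuousOn F (Set.Icc τ τ') :=
    continuousOn_F.mono (Set.Icc_subset_Icc (by linarith) hτ2.le)
  have hin : F 1 * F τ / F t1 ∈ Set.Ioo (F τ) (F τ') := by
    constructor
    · rw [lt_div_iff₀ (by linarith)]
      nlinarith
    · rw [div_lt_iff₀ (by linarith)]
      rw [div_lt_iff₀ (by linarith)] at hFt1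
      linarith
  obtain ⟨t2, ht2, ht2F⟩ := intermediate_value_Ioo hτ1.le hcont2 hin
  have hprod : F t1 * F t2 = F 1 * F τ := by
    rw [ht2F]; field_simp
  have hone : Lam τ * Jh (t1, t2) = 1 := by
    have : Jh (t1, t2) = Jh (1, τ) := by unfold Jh; simp only [hprod]
    rw [this]; exact Lam_mul hτ0.le h1.le
  have hut := hu t1 t2 ht1.1 ht1.2 (h0.trans ht2.1) (ht2.2.trans hτ2)
  have hratio : m1 (Lam τ) (t1, t2) * s0.2 < m2 (Lam τ) (t1, t2) * s0.1 := by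
    unfold m1 m2
    rw [s0_1eq]
    simp only
    have hp : 0 < Lam τ * cc * s0.2 := mul_pos (mul_pos hL cc_pos) hs2
    have := mul_lt_mul_of_pos_left hut hp
    linarith
  have h := nu_le hL (Lam_lt_one hτ0.le h1.le) (t := (t1, t2)) ⟨hu0.trans ht1.1, ht1.2⟩
    ⟨hτ0.trans ht2.1, ht2.2.trans hτ2⟩ hone hs2 hratio
  refine h.trans ?_
  simp only
  have h5 : t2 ≤ τ + ε / s0.2 := ht2.2.le.trans hτ3
  have h6 : t2 * s0.2 ≤ (τ + ε / s0.2) * s0.2 := mul_le_mul_of_nonneg_right h5 hs2.le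
  have h7 : (τ + ε / s0.2) * s0.2 = τ * s0.2 + ε := by field_simp
  linarith

/-- For small `τ` the facet point is not the maximiser. -/
lemma exists_tau0 : ∃ τ0 : ℝ, 0 < τ0 ∧ τ0 < 1 ∧ ∀ τ, 0 < τ → τ < τ0 →
    s0.1 + τ * s0.2 < nu psi s0 (Lam τ) := by
  obtain ⟨ε, hε0, hε1, hε⟩ := exists_eps
  have hc : ContinuousOn (fun τ : ℝ => F (1 - ε) * F (τ + 3 * ε)) (Set.Icc 0 (1 / 2)) := by
    refine continuousOn_const.mul (continuousOn_F.comp (by fun_prop) ?_)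
    intro τ hτ
    exact ⟨by linarith [hτ.1], by linarith [hτ.2]⟩
  have h0 : (0 : ℝ) ∈ Set.Icc (0 : ℝ) (1 / 2) := by norm_num
  have hc0 := hc 0 h0
  have hev : ∀ᶠ τ in 𝓝[Set.Icc (0 : ℝ) (1 / 2)] 0, F (1 - ε) * F (τ + 3 * ε) < F 1 * F 0 :=
    hc0.eventually (gt_mem_nhds (by simpa using hε))
  rw [eventually_nhdsWithin_iff, Metric.eventually_nhds_iff] at hev
  obtain ⟨δ, hδ, hev⟩ := hev
  refine ⟨min (1 / 2) δ, by positivity, lt_of_le_of_lt (min_le_left _ _) (by norm_num), ?_⟩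
  intro τ hτ0 hτ1
  have a1 : τ < 1 / 2 := lt_of_lt_of_le hτ1 (min_le_left _ _)
  have a2 : τ < δ := lt_of_lt_of_le hτ1 (min_le_right _ _)
  have h3 := hev (y := τ) (by rw [Real.dist_eq, sub_zero, abs_of_pos hτ0]; exact a2)
    ⟨hτ0.le, a1.le⟩
  have h4 : F 0 ≤ F τ := F_le le_rfl hτ0.le (by linarith)
  have hF1 : 1 ≤ F 1 := F_one_le (by norm_num)
  have hL := Lam_pos hτ0.le (by linarith : τ ≤ 1)
  have hlt : Jh (1 - ε, τ + 3 * ε) < Jh (1, τ) := by
    unfold Jh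
    simp only
    refine mul_lt_mul_of_pos_left ?_ cc_pos
    nlinarith
  have h := nu_ge good_psi hL (Lam_lt_one hτ0.le (by linarith)) s0 (1 - ε, τ + 3 * ε)
    (Lt_lt_one hL.le (by rw [abs_of_pos (by simp only; linarith)]; simp only; linarith)
      (by rw [abs_of_pos (by simp only; linarith)]; simp only; linarith)
      (lt_of_lt_of_eq (mul_lt_mul_of_pos_left hlt hL) (Lam_mul hτ0.le (by linarith))))
  simp only at h
  rw [s0_1eq] at h ⊢
  have hs2 := s0_2pos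
  nlinarith [mul_pos hε0 hs2]

lemma Lam_analytic {τ : ℝ} (h0 : 0 < τ) (h1 : τ < 1) : AnalyticAt ℝ Lam τ := by
  have hF : AnalyticAt ℝ F τ := analyticAt_F ⟨by linarith, h1⟩
  have h2 : AnalyticAt ℝ (fun τ : ℝ => cc * (F 1 * F τ - 1)) τ :=
    analyticAt_const.mul ((analyticAt_const.mul hF).sub analyticAt_const)
  have h3 : AnalyticAt ℝ (fun τ : ℝ => 1 / (cc * (F 1 * F τ - 1))) τ := by
    refine analyticAt_const.div h2 ?_
    have := Jh_one_gt h0.le h1.le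
    unfold Jh at this
    simp only at this
    linarith
  exact h3

/-- `inf_s ν_s(λ) > 0` for `λ < 1`. -/
lemma nu_inf_pos {lam : ℝ} (hl : 0 < lam) (h1 : lam < 1) :
    ∃ δ : ℝ, 0 < δ ∧ ∀ s : Unit2, δ ≤ nu psi s.1 lam := by
  have hc : ContinuousOn (fun u : ℝ => lam * Jh (u, u)) (Set.Icc 0 1) := by
    have hF : ContinuousOn F (Set.Icc 0 1) :=
      continuousOn_F.mono (Set.Icc_subset_Icc (by norm_num) le_rfl)
    unfold Jh
    exact continuousOn_const.mul (continuousOn_const.mul ((hF.mul hF).sub continuousOn_const))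
  have hev : ∀ᶠ u in 𝓝[Set.Icc (0 : ℝ) 1] 0, lam * Jh (u, u) < 1 :=
    (hc 0 (by norm_num)).eventually (gt_mem_nhds (by simp only; rw [Jh_zero, mul_one]; exact h1))
  rw [eventually_nhdsWithin_iff, Metric.eventually_nhds_iff] at hev
  obtain ⟨ε, hε, hev⟩ := hev
  set δ : ℝ := min (1 / 2) (ε / 2) with hδ
  have hδ0 : 0 < δ := by positivity
  have hδ1 : δ ≤ 1 / 2 := min_le_left _ _
  have hδ2 : δ ≤ ε / 2 := min_le_right _ _
  have hJ := hev (y := δ) (by rw [Real.dist_eq, sub_zero, abs_of_pos hδ0]; linarith)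
    ⟨hδ0.le, by linarith⟩
  refine ⟨δ, hδ0, fun s => ?_⟩
  have hsgn : ∀ a : ℝ, ∃ e : ℝ, |e| = δ ∧ e * a = δ * |a| := by
    intro a
    rcases le_total 0 a with h | h
    · exact ⟨δ, abs_of_pos hδ0, by rw [abs_of_nonneg h]⟩
    · exact ⟨-δ, by rw [abs_neg, abs_of_pos hδ0], by rw [abs_of_nonpos h]; ring⟩
  obtain ⟨e1, he1, he1'⟩ := hsgn s.1.1
  obtain ⟨e2, he2, he2'⟩ := hsgn s.1.2
  have hJe : Jh (e1, e2) = Jh (δ, δ) := by
    unfold Jh
    simp only
    rw [← F_abs e1, ← F_abs e2, he1, he2]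
  have h := nu_ge good_psi hl h1 s.1 (e1, e2)
    (Lt_lt_one hl.le (by simp only; rw [he1]; linarith) (by simp only; rw [he2]; linarith)
      (by rw [hJe]; exact hJ))
  simp only at h
  rw [he1', he2'] at h
  have hs := s.2
  have h2 : 1 ≤ |s.1.1| + |s.1.2| := by
    have a1 := abs_nonneg s.1.1
    have a2 := abs_nonneg s.1.2
    by_contra hcon
    push Not at hcon
    have : (|s.1.1| + |s.1.2|) ^ 2 < 1 := by nlinarith
    have e : (|s.1.1| + |s.1.2|) ^ 2 = s.1.1 ^ 2 + s.1.2 ^ 2 + 2 * (|s.1.1| * |s.1.2|) := by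
      rw [← sq_abs s.1.1, ← sq_abs s.1.2]; ring
    nlinarith [mul_nonneg a1 a2]
  nlinarith

lemma lt_lamExp {lam : ℝ} (h1 : lam < 1) : (lam : EReal) < lamExp psi := by
  unfold lamExp
  rw [lamC_eq good_psi]
  have hempty : {x : EReal | ∃ lam : ℝ, x = (lam : EReal) ∧ 0 < lam ∧ lam < 1 ∧
      (⨅ s : Unit2, nu psi s.1 lam) = 0} = ∅ := by
    rw [Set.eq_empty_iff_forall_notMem]
    rintro x ⟨μ, _, hμ0, hμ1, hμ⟩
    obtain ⟨δ, hδ, hs⟩ := nu_inf_pos hμ0 hμ1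
    have : Nonempty Unit2 := ⟨⟨s0, s0_unit⟩⟩
    have := le_ciInf hs
    rw [hμ] at this
    linarith
  rw [hempty, sInf_empty, min_top_right]
  exact_mod_cast h1

theorem main : ∃ lam : ℝ, lamSat psi s0 < lam ∧ (lam : EReal) < lamExp psi ∧
    ¬ AnalyticAt ℝ (nu psi s0) lam := by
  obtain ⟨u0, hu00, hu01, hu⟩ := exists_u0
  obtain ⟨τ0, hτ00, hτ01, hτ0⟩ := exists_tau0
  set Z : Set ℝ := {τ | 0 < τ ∧ τ < 1 ∧ ∀ τ', τ < τ' → τ' < 1 → nu psi s0 (Lam τ') =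
    s0.1 + τ' * s0.2} with hZ
  have hu0Z : u0 ∈ Z := ⟨hu00, hu01, fun τ' h1 h2 =>
    le_antisymm (nu_le_facet hu00 hu h1 h2) (nu_ge_facet (hu00.trans h1) h2)⟩
  have hlow : ∀ τ ∈ Z, τ0 ≤ τ := by
    intro τ hτ
    by_contra hcon
    push Not at hcon
    have h1 := hτ.2.2 ((τ + τ0) / 2) (by linarith) (by linarith)
    have h2 := hτ0 ((τ + τ0) / 2) (by linarith [hτ.1]) (by linarith)
    linarith
  set b : ℝ := sInf Z with hb
  have hbdd : BddBelow Z := ⟨τ0, hlow⟩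
  have hb0 : τ0 ≤ b := le_csInf ⟨u0, hu0Z⟩ hlow
  have hb1 : b ≤ u0 := csInf_le hbdd hu0Z
  have hbpos : 0 < b := hτ00.trans_le hb0
  have hblt : b < 1 := hb1.trans_lt hu01
  have hright : ∀ τ', b < τ' → τ' < 1 → nu psi s0 (Lam τ') = s0.1 + τ' * s0.2 := by
    intro τ' h1 h2
    obtain ⟨τ, hτ, hlt⟩ := exists_lt_of_csInf_lt ⟨u0, hu0Z⟩ h1
    exact hτ.2.2 τ' hlt h2
  refine ⟨Lam b, ?_, lt_lamExp (Lam_lt_one hbpos.le hblt.le), ?_⟩
  · set τ' : ℝ := (b + 1) / 2 with hτ'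
    have h1 : b < τ' := by rw [hτ']; linarith
    have h2 : τ' < 1 := by rw [hτ']; linarith
    have h3 : Lam τ' < Lam b := Lam_lt hbpos.le h1 h2.le
    have hL' := Lam_pos (by linarith : 0 ≤ τ') h2.le
    refine lt_of_le_of_lt ?_ h3
    refine Real.sSup_le ?_ hL'.le
    rintro lam ⟨hl0, hl1, hl2⟩
    rw [lamC_eq good_psi] at hl1
    by_contra hcon
    push Not at hcon
    have h4 := nu_anti good_psi hL' hcon.le hl1 s0
    rw [hright τ' h1 h2, hl2] at h4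
    have hs2 := s0_2pos
    have hs1 : 0 < s0.1 := by rw [s0_1eq]; linarith
    rw [abs_of_pos hs1, abs_of_pos hs2] at h4
    nlinarith
  · intro ha
    have hcomp : AnalyticAt ℝ (fun τ => nu psi s0 (Lam τ)) b :=
      ha.comp (Lam_analytic hbpos hblt)
    have hh : AnalyticAt ℝ (fun τ => nu psi s0 (Lam τ) - (s0.1 + τ * s0.2)) b :=
      hcomp.sub (analyticAt_const.add (analyticAt_id.mul analyticAt_const))
    rcases hh.eventually_eq_zero_or_eventually_ne_zero with h | h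
    · rw [Metric.eventually_nhds_iff] at h
      obtain ⟨ε, hε, hball⟩ := h
      set δ : ℝ := min (ε / 2) (b / 2) with hδ
      have hδ0 : 0 < δ := by positivity
      have hδ1 : δ ≤ ε / 2 := min_le_left _ _
      have hδ2 : δ ≤ b / 2 := min_le_right _ _
      have hmem : b - δ ∈ Z := by
        refine ⟨by linarith, by linarith, fun τ' h1 h2 => ?_⟩
        by_cases h3 : b < τ'
        · exact hright τ' h3 h2
        · push Not at h3
          have := hball (y := τ') (by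
            rw [Real.dist_eq, abs_sub_comm, abs_of_nonneg (by linarith)]; linarith)
          linarith
      have := csInf_le hbdd hmem
      linarith
    · have h2 : ∀ᶠ τ in 𝓝[>] b, nu psi s0 (Lam τ) - (s0.1 + τ * s0.2) ≠ 0 :=
        h.filter_mono (nhdsWithin_mono _ fun x hx => ne_of_gt hx)
      have h3 : ∀ᶠ τ in 𝓝[>] b, τ < 1 :=
        (gt_mem_nhds hblt).filter_mono nhdsWithin_le_nhds
      obtain ⟨τ, hτ1, hτ2, hτ3⟩ := (h2.and (h3.and self_mem_nhdsWithin)).exists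
      exact hτ1 (by rw [hright τ hτ3 hτ2]; ring)

end Pool.Agent.TH982.KRW
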