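import Pool.Agent.TH982.KRW.Gen
import Pool.Agent.TH982.KRW.F

set_option autoImplicit false

/-!
# The example `ψ(x) = c (1+x₁²)^{-2} (1+x₂²)^{-2}`
-/

namespace Pool.Agent.TH982.KRW

open Filter Topology
open scoped ENNReal

lemma sum_ff {u : ℝ} (hu : |u| ≤ 1) : HasSum (fun k : ℤ => ff k * Real.exp (u * k)) (F u) := by
  have hb : ∀ v : ℝ, |v| ≤ 1 → Summable fun k : ℤ => ff k * Real.exp (v * k) := by
    intro v hv
    refine Summable.of_nonneg_of_le (fun k => mul_nonneg (ff_pos k).le (Real.exp_pos _).le)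
      (fun k => ?_) summable_gg
    unfold ff
    rw [mul_assoc]
    exact mul_le_of_le_one_right (gg_pos k).le (exp_le v hv k)
  have h1 := hb u hu
  have h2 := hb (-u) (by rwa [abs_neg])
  have e : ∑' k : ℤ, ff k * Real.exp (-u * k) = ∑' k : ℤ, ff k * Real.exp (u * k) := by
    rw [← (Equiv.neg ℤ).tsum_eq (fun k : ℤ => ff k * Real.exp (u * k))]
    refine tsum_congr fun k => ?_
    simp only [Equiv.neg_apply, ff_neg]
    congr 2
    push_cast; ring
  have hF : F u = ∑' k : ℤ, ff k * Real.exp (u * k) := by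
    have h3 : F u = ∑' k : ℤ, (1 / 2 * (ff k * Real.exp (u * k)) +
        1 / 2 * (ff k * Real.exp (-u * k))) := by
      unfold F
      refine tsum_congr fun k => ?_
      rw [Real.cosh_eq, neg_mul]; ring
    rw [h3, (h1.mul_left _).tsum_add (h2.mul_left _), tsum_mul_left, tsum_mul_left, e]
    ring
  rw [hF]
  exact h1.hasSum

lemma F_zero_gt : 1 < F 0 := by
  have h := sum_ff (u := 0) (by norm_num)
  have h1 := h.summable.sum_le_tsum {0, 1}
    (fun k _ => mul_nonneg (ff_pos k).le (Real.exp_pos _).le)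
  rw [h.tsum_eq, Finset.sum_pair (by norm_num)] at h1
  simp only [zero_mul, Real.exp_zero, mul_one, ff_zero] at h1
  linarith [ff_pos 1]

/-- normalising constant -/
noncomputable def cc : ℝ := 1 / (F 0 ^ 2 - 1)

lemma F0sq : 0 < F 0 ^ 2 - 1 := by nlinarith [F_zero_gt]

lemma cc_pos : 0 < cc := by unfold cc; exact div_pos one_pos F0sq

/-- the prefactor -/
noncomputable def psi (x : Sx) : ℝ := cc * gg x.1 * gg x.2

lemma psi_pos (x : Sx) : 0 < psi x := mul_pos (mul_pos cc_pos (gg_pos _)) (gg_pos _)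

/-- the generating function of the couplings -/
noncomputable def Jh (t : ℝ × ℝ) : ℝ := cc * (F t.1 * F t.2 - 1)

lemma J_eq (x : Sx) : J psi x = cc * (ff x.1 * ff x.2) - if x = 0 then cc else 0 := by
  unfold J
  split_ifs with h
  · subst h; simp [ff_zero]
  · unfold psi ff l1
    rw [neg_add, Real.exp_add]; ring

lemma J_hasSum {t : ℝ × ℝ} (h1 : |t.1| ≤ 1) (h2 : |t.2| ≤ 1) :
    HasSum (fun x : Sx => J psi x * Real.exp (t.1 * x.1 + t.2 * x.2)) (Jh t) := by
  have a1 := sum_ff h1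
  have a2 := sum_ff h2
  have hp : Summable fun x : ℤ × ℤ => (ff x.1 * Real.exp (t.1 * x.1)) * (ff x.2 * Real.exp (t.2 * x.2)) :=
    a1.summable.mul_of_nonneg a2.summable
      (fun k => mul_nonneg (ff_pos k).le (Real.exp_pos _).le)
      (fun k => mul_nonneg (ff_pos k).le (Real.exp_pos _).le)
  have a3 : HasSum (fun x : ℤ × ℤ => (ff x.1 * Real.exp (t.1 * x.1)) * (ff x.2 * Real.exp (t.2 * x.2)))
      (F t.1 * F t.2) := a1.mul a2 hp
  have a4 : HasSum (fun x : Sx => if x = 0 then cc else 0) cc := hasSum_ite_eq 0 cc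
  have a5 := (a3.mul_left cc).sub a4
  have e : Jh t = cc * (F t.1 * F t.2) - cc := by unfold Jh; ring
  rw [e]
  have e2 : (fun x : Sx => J psi x * Real.exp (t.1 * x.1 + t.2 * x.2)) = fun x : Sx =>
      cc * ((ff x.1 * Real.exp (t.1 * x.1)) * (ff x.2 * Real.exp (t.2 * x.2))) -
        if x = 0 then cc else 0 := by
    funext x
    rw [J_eq, Real.exp_add]
    split_ifs with h
    · subst h; simp [ff_zero]
    · ring
  rw [e2]
  exact a5

lemma Jh_zero : Jh (0, 0) = 1 := by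
  unfold Jh cc
  have := F0sq
  simp only
  field_simp

lemma J_nonneg (x : Sx) : 0 ≤ J psi x := by
  unfold J
  split_ifs
  · exact le_rfl
  · exact mul_nonneg (psi_pos x).le (Real.exp_pos _).le

lemma Lt_eq {lam : ℝ} (hl : 0 ≤ lam) {t : ℝ × ℝ} (h1 : |t.1| ≤ 1) (h2 : |t.2| ≤ 1) :
    Lt psi lam t = ENNReal.ofReal (lam * Jh t) := by
  have h := (J_hasSum h1 h2).mul_left lam
  rw [← h.tsum_eq, ENNReal.ofReal_tsum_of_nonneg]
  · unfold Lt ex
    refine tsum_congr fun x => ?_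
    rw [← ENNReal.ofReal_mul (mul_nonneg hl (J_nonneg x)), mul_assoc]
  · intro x
    exact mul_nonneg hl (mul_nonneg (J_nonneg x) (Real.exp_pos _).le)
  · exact h.summable

lemma J_hasSum_one : HasSum (J psi) 1 := by
  have h := J_hasSum (t := (0, 0)) (by norm_num) (by norm_num)
  rw [Jh_zero] at h
  simpa using h

lemma good_psi : Good psi := by
  refine ⟨J_nonneg, fun x hx => ?_, ?_⟩
  · unfold J
    rw [if_neg hx]
    exact mul_pos (psi_pos x) (Real.exp_pos _)
  · rw [← ENNReal.ofReal_tsum_of_nonneg J_nonneg J_hasSum_one.summable, J_hasSum_one.tsum_eq,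
      ENNReal.ofReal_one]

lemma psi_symm (x : Sx) :
    psi (-x.1, x.2) = psi x ∧ psi (x.1, -x.2) = psi x ∧ psi (x.2, x.1) = psi x := by
  unfold psi
  refine ⟨?_, ?_, ?_⟩
  · simp only [gg_neg]
  · simp only [gg_neg]
  · simp only; ring

lemma tendsto_l1 : Tendsto l1 cofinite atTop := by
  rw [tendsto_atTop]
  intro R
  rw [eventually_cofinite]
  refine (Finset.finite_toSet (Finset.Icc (-⌈R⌉) ⌈R⌉ ×ˢ Finset.Icc (-⌈R⌉) ⌈R⌉ : Finset Sx)).subset ?_
  intro x hx
  simp only [not_le] at hx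
  have hx' : l1 x < R := hx
  unfold l1 at hx'
  have hR : (R : ℝ) ≤ (⌈R⌉ : ℝ) := Int.le_ceil R
  have a1 : |(x.1 : ℝ)| ≤ (⌈R⌉ : ℝ) := by linarith [abs_nonneg (x.2 : ℝ)]
  have a2 : |(x.2 : ℝ)| ≤ (⌈R⌉ : ℝ) := by linarith [abs_nonneg (x.1 : ℝ)]
  rw [Finset.mem_coe, Finset.mem_product, Finset.mem_Icc, Finset.mem_Icc, ← abs_le, ← abs_le]
  exact ⟨by exact_mod_cast a1, by exact_mod_cast a2⟩

lemma log_gg (k : ℤ) : Real.log (gg k) = -(2 * Real.log (1 + (k : ℝ) ^ 2)) := by
  unfold gg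
  rw [one_div, Real.log_inv, Real.log_pow]
  push_cast; ring

lemma psi_subexp : Tendsto (fun y : Sx => Real.log (psi y) / l1 y) cofinite (𝓝 0) := by
  have h1 : Tendsto (fun r : ℝ => Real.log r / r) atTop (𝓝 0) :=
    Real.isLittleO_log_id_atTop.tendsto_div_nhds_zero
  have h2 : Tendsto (fun r : ℝ => 1 / r) atTop (𝓝 0) := by
    simpa using tendsto_inv_atTop_zero
  set C : ℝ := |Real.log cc| + 4 * Real.log 2 with hC
  have h3 : Tendsto (fun r : ℝ => C * (1 / r) + 8 * (Real.log r / r)) atTop (𝓝 (C * 0 + 8 * 0)) :=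
    (h2.const_mul C).add (h1.const_mul 8)
  rw [mul_zero, mul_zero, add_zero] at h3
  have h4 := h3.comp tendsto_l1
  refine squeeze_zero_norm' ?_ h4
  filter_upwards [tendsto_l1.eventually_ge_atTop 1] with y hy
  have hy0 : 0 < l1 y := by linarith
  simp only [Function.comp]
  rw [Real.norm_eq_abs, abs_div, abs_of_pos hy0, div_le_iff₀ hy0]
  have e : (C * (1 / l1 y) + 8 * (Real.log (l1 y) / l1 y)) * l1 y = C + 8 * Real.log (l1 y) := by
    field_simp
  rw [e]
  have hpsi : Real.log (psi y) = Real.log cc + Real.log (gg y.1) + Real.log (gg y.2) := by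
    unfold psi
    rw [Real.log_mul (mul_pos cc_pos (gg_pos _)).ne' (gg_pos _).ne', Real.log_mul cc_pos.ne'
      (gg_pos _).ne']
  have hk : ∀ k : ℤ, |(k : ℝ)| ≤ l1 y → |Real.log (gg k)| ≤ 2 * Real.log 2 + 4 * Real.log (l1 y) := by
    intro k hk
    have h5 : 1 ≤ 1 + (k : ℝ) ^ 2 := by nlinarith [sq_nonneg (k : ℝ)]
    rw [log_gg, abs_neg, abs_of_nonneg (mul_nonneg (by norm_num) (Real.log_nonneg h5))]
    have h6 : 1 + (k : ℝ) ^ 2 ≤ 2 * (l1 y) ^ 2 := by
      rw [← sq_abs (k : ℝ)]; nlinarith [abs_nonneg (k : ℝ)]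
    have h7 := Real.log_le_log (by linarith) h6
    rw [Real.log_mul (by norm_num) (by positivity), Real.log_pow] at h7
    push_cast at h7
    linarith
  have k1 := hk y.1 (by unfold l1; linarith [abs_nonneg (y.2 : ℝ)])
  have k2 := hk y.2 (by unfold l1; linarith [abs_nonneg (y.1 : ℝ)])
  rw [hpsi, hC]
  calc |Real.log cc + Real.log (gg y.1) + Real.log (gg y.2)|
      ≤ |Real.log cc| + |Real.log (gg y.1)| + |Real.log (gg y.2)| := abs_add_three _ _ _
    _ ≤ _ := by linarith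

end Pool.Agent.TH982.KRW
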