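import Pool.Agent.TH982.KRW.Low

set_option autoImplicit false

/-!
# Upper bound for the inverse correlation length
-/

namespace Pool.Agent.TH982.KRW

open Filter Topology
open scoped ENNReal

lemma log_one_add_sq {y A n : ℝ} (hn : 1 ≤ n) (hy : |y| ≤ n * A) :
    Real.log (1 + y ^ 2) ≤ Real.log (1 + A ^ 2) + 2 * Real.log n := by
  have hn0 : 0 < n := by linarith
  have h1 : y ^ 2 ≤ (n * A) ^ 2 := by rw [← sq_abs y]; exact pow_le_pow_left₀ (abs_nonneg _) hy 2
  have h2 : 1 + y ^ 2 ≤ (1 + A ^ 2) * n ^ 2 := by nlinarith [sq_nonneg A]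
  have h3 := Real.log_le_log (by positivity) h2
  rw [Real.log_mul (by positivity) (by positivity), Real.log_pow] at h3
  push_cast at h3
  exact h3

/-- one step of the estimate -/
lemma g_lower {lam : ℝ} (hl : 0 < lam) (h1 : lam < 1) {t : ℝ × ℝ} {N : ℕ} {x z : Sx} {c : ℝ}
    (hc : 0 < c) (hx : ENNReal.ofReal c ≤ walks psi lam N x * ex t x) (hy : 0 < (z - x).1) :
    -Real.log (G psi lam z).toReal ≤ (t.1 * x.1 + t.2 * x.2) - Real.log c - Real.log lam -
      Real.log cc + 2 * Real.log (1 + (((z - x).1 : ℤ) : ℝ) ^ 2) +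
      2 * Real.log (1 + (((z - x).2 : ℤ) : ℝ) ^ 2) +
      (((z - x).1 : ℤ) : ℝ) + |(((z - x).2 : ℤ) : ℝ)| := by
  set y : Sx := z - x with hyd
  have hy0 : y ≠ 0 := by
    intro h; rw [h] at hy; simp at hy
  have hfin : walks psi lam N x ≠ ∞ := ne_top_of_le_ne_top (G_ne_top good_psi hl.le h1 x)
    (ENNReal.le_tsum (f := fun n => walks psi lam n x) N)
  have h2 : walks psi lam N x * ENNReal.ofReal (lam * J psi y) ≤ G psi lam z := by
    have h3 : walks psi lam (N + 1) z ≤ G psi lam z :=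
      ENNReal.le_tsum (f := fun n => walks psi lam n z) (N + 1)
    refine le_trans ?_ h3
    rw [walks_succ]
    exact ENNReal.le_tsum (f := fun v => walks psi lam N v * ENNReal.ofReal (lam * J psi (z - v))) x
  have hJ : J psi y = psi y * Real.exp (-l1 y) := by unfold J; rw [if_neg hy0]
  have hJpos : 0 < J psi y := by rw [hJ]; exact mul_pos (psi_pos y) (Real.exp_pos _)
  have h4 := ENNReal.toReal_mono (G_ne_top good_psi hl.le h1 z) h2
  rw [ENNReal.toReal_mul, ENNReal.toReal_ofReal (mul_pos hl hJpos).le] at h4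
  have h5 : c ≤ (walks psi lam N x).toReal * Real.exp (t.1 * x.1 + t.2 * x.2) := by
    have h6 : walks psi lam N x * ex t x ≠ ∞ := ENNReal.mul_ne_top hfin ENNReal.ofReal_ne_top
    have h7 := ENNReal.toReal_mono h6 hx
    rw [ENNReal.toReal_ofReal hc.le, ENNReal.toReal_mul] at h7
    have : (ex t x).toReal = Real.exp (t.1 * x.1 + t.2 * x.2) :=
      ENNReal.toReal_ofReal (Real.exp_pos _).le
    rwa [this] at h7
  have hw : 0 < (walks psi lam N x).toReal := by
    by_contra hcon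
    have : (walks psi lam N x).toReal = 0 := le_antisymm (not_lt.1 hcon) ENNReal.toReal_nonneg
    rw [this, zero_mul] at h5
    linarith
  have h8 := Real.log_le_log hc h5
  rw [Real.log_mul hw.ne' (Real.exp_pos _).ne', Real.log_exp] at h8
  have h9 := Real.log_le_log (mul_pos hw (mul_pos hl hJpos)) h4
  rw [Real.log_mul hw.ne' (mul_pos hl hJpos).ne', Real.log_mul hl.ne' hJpos.ne', hJ,
    Real.log_mul (psi_pos y).ne' (Real.exp_pos _).ne', Real.log_exp] at h9
  have hpsi : Real.log (psi y) = Real.log cc + Real.log (gg y.1) + Real.log (gg y.2) := by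
    unfold psi
    rw [Real.log_mul (mul_pos cc_pos (gg_pos _)).ne' (gg_pos _).ne', Real.log_mul cc_pos.ne'
      (gg_pos _).ne']
  rw [hpsi, log_gg, log_gg] at h9
  have hl1 : l1 y = ((y.1 : ℤ) : ℝ) + |((y.2 : ℤ) : ℝ)| := by
    unfold l1
    rw [abs_of_pos (by exact_mod_cast hy)]
  rw [hl1] at h9
  linarith

theorem nu_le {lam : ℝ} (hl : 0 < lam) (h1 : lam < 1) {t : ℝ × ℝ} (ht1 : 0 < t.1 ∧ t.1 < 1)
    (ht2 : 0 < t.2 ∧ t.2 < 1) (hone : lam * Jh t = 1) {s : ℝ × ℝ} (hs2 : 0 < s.2)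
    (hratio : m1 lam t * s.2 < m2 lam t * s.1) : nu psi s lam ≤ s.1 + t.2 * s.2 := by
  have hm1 : 0 < m1 lam t := mul_pos (mul_pos hl cc_pos) (mul_pos (D_pos ht1.1 ht1.2.le)
    (by linarith [F_one_le (u := t.2) (by rw [abs_of_pos ht2.1]; exact ht2.2.le)]))
  have hm2 : 0 < m2 lam t := mul_pos (mul_pos hl cc_pos) (mul_pos
    (by linarith [F_one_le (u := t.1) (by rw [abs_of_pos ht1.1]; exact ht1.2.le)])
    (D_pos ht2.1 ht2.2.le))
  set μ1 := m1 lam t with hμ1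
  set μ2 := m2 lam t with hμ2
  set κ : ℝ := s.2 / μ2 with hκ
  have hκ0 : 0 < κ := div_pos hs2 hm2
  have hκ2 : κ * μ2 = s.2 := by rw [hκ]; field_simp
  set ρ : ℝ := s.1 - κ * μ1 with hρ
  have hρ0 : 0 < ρ := by
    have : κ * μ1 * μ2 < s.1 * μ2 := by
      calc κ * μ1 * μ2 = μ1 * (κ * μ2) := by ring
        _ = μ1 * s.2 := by rw [hκ2]
        _ < μ2 * s.1 := hratio
        _ = s.1 * μ2 := by ring
    have := lt_of_mul_lt_mul_right this hm2.le
    rw [hρ]; linarith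
  -- it suffices to prove the bound with an error
  have main : ∀ η : ℝ, 0 < η → κ * η ≤ ρ / 2 → nu psi s lam ≤ s.1 + t.2 * s.2 + 3 * (κ * η) := by
    intro η hη hηρ
    obtain ⟨N0, hbox⟩ := box hl ht1 ht2 hone hη
    set A1 : ℝ := 2 * (κ * (μ1 + μ2 + η)) + 3 with hA1
    set A2 : ℝ := s.1 + 1 + κ * (μ1 + η) with hA2
    set A3 : ℝ := 1 + μ2 + κ * η with hA3
    set C : ℝ := (2 + 2 * μ2) + (Real.log 2 + 2 * Real.log A1) - Real.log lam - Real.log cc +
      2 * Real.log (1 + A2 ^ 2) + 2 * Real.log (1 + A3 ^ 2) with hC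
    have hA1p : 0 < A1 := by positivity
    have l1' : Tendsto (fun n : ℕ => Real.log (n : ℝ) / (n : ℝ)) atTop (𝓝 0) :=
      (Real.isLittleO_log_id_atTop.tendsto_div_nhds_zero).comp tendsto_natCast_atTop_atTop
    have l2' : Tendsto (fun n : ℕ => C / (n : ℝ)) atTop (𝓝 0) :=
      tendsto_const_div_atTop_nhds_zero_nat _
    have hlimR : Tendsto (fun n : ℕ => (s.1 + t.2 * s.2 + 3 * (κ * η)) + C / (n : ℝ) +
        10 * (Real.log (n : ℝ) / (n : ℝ))) atTop
        (𝓝 ((s.1 + t.2 * s.2 + 3 * (κ * η)) + 0 + 10 * 0)) :=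
      (tendsto_const_nhds.add l2').add (l1'.const_mul 10)
    rw [mul_zero, add_zero, add_zero] at hlimR
    refine le_of_tendsto_of_tendsto (nu_tendsto good_psi hl h1 s) hlimR ?_
    have hN : Tendsto (fun n : ℕ => ⌊(n : ℝ) * κ⌋₊) atTop atTop := by
      refine tendsto_nat_floor_atTop.comp ?_
      exact Tendsto.atTop_mul_const hκ0 tendsto_natCast_atTop_atTop
    have hn2 : ∀ᶠ n : ℕ in atTop, 1 < (n : ℝ) * (ρ / 2) * 2 := by
      have : Tendsto (fun n : ℕ => (n : ℝ) * (ρ / 2) * 2) atTop atTop :=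
        (Tendsto.atTop_mul_const (by positivity) tendsto_natCast_atTop_atTop).atTop_mul_const
          (by norm_num)
      exact this.eventually_gt_atTop 1
    filter_upwards [hN.eventually_ge_atTop N0, hn2, eventually_ge_atTop 1] with n hnN hnρ hn1
    have hn1' : (1 : ℝ) ≤ n := by exact_mod_cast hn1
    have hn0 : (0 : ℝ) < n := by linarith
    obtain ⟨x, bx1, bx2, hx⟩ := hbox _ hnN
    set N : ℕ := ⌊(n : ℝ) * κ⌋₊ with hNd
    have hNle : (N : ℝ) ≤ n * κ := Nat.floor_le (by positivity)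
    have hNlt : (n : ℝ) * κ < N + 1 := Nat.lt_floor_add_one _
    have hN0' : (0 : ℝ) ≤ N := N.cast_nonneg
    set z : Sx := pt s n with hz
    obtain ⟨bz1, bz2⟩ := pt_bounds s n
    rw [← hz] at bz1 bz2
    rw [abs_le] at bx1 bx2 bz1 bz2
    have ey1 : (((z - x).1 : ℤ) : ℝ) = (z.1 : ℝ) - x.1 := by
      rw [Prod.fst_sub]; push_cast; ring
    have ey2 : (((z - x).2 : ℤ) : ℝ) = (z.2 : ℝ) - x.2 := by
      rw [Prod.snd_sub]; push_cast; ring
    have hNη : (N : ℝ) * η ≤ n * κ * η := mul_le_mul_of_nonneg_right hNle hη.le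
    have hNμ1 : (N : ℝ) * μ1 ≤ n * κ * μ1 := mul_le_mul_of_nonneg_right hNle hm1.le
    have hNμ1' : 0 ≤ (N : ℝ) * μ1 := mul_nonneg hN0' hm1.le
    have hNη' : 0 ≤ (N : ℝ) * η := mul_nonneg hN0' hη.le
    have hηρn : (n : ℝ) * (κ * η) ≤ n * (ρ / 2) := mul_le_mul_of_nonneg_left hηρ hn0.le
    have hρn : (n : ℝ) * ρ = n * s.1 - n * κ * μ1 := by rw [hρ]; ring
    have hy1pos : (0 : ℝ) < (((z - x).1 : ℤ) : ℝ) := by
      rw [ey1]; linarith
    have hy1pos' : 0 < (z - x).1 := by exact_mod_cast hy1pos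
    set R : ℕ := ⌈(N : ℝ) * (μ1 + μ2 + η)⌉₊ with hR
    have hRle : (R : ℝ) ≤ n * (κ * (μ1 + μ2 + η)) + 1 := by
      have h3 := (Nat.ceil_lt_add_one (by positivity : 0 ≤ (N : ℝ) * (μ1 + μ2 + η))).le
      have h4 : (N : ℝ) * (μ1 + μ2 + η) ≤ n * κ * (μ1 + μ2 + η) :=
        mul_le_mul_of_nonneg_right hNle (by positivity)
      linarith
    have hc : (0 : ℝ) < 1 / (2 * (2 * (R : ℝ) + 1) ^ 2) := by positivity
    have hlow := g_lower hl h1 hc hx hy1pos'
    -- logarithms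
    have hlogc : -Real.log (1 / (2 * (2 * (R : ℝ) + 1) ^ 2)) ≤
        Real.log 2 + 2 * Real.log A1 + 2 * Real.log n := by
      rw [one_div, Real.log_inv, neg_neg, Real.log_mul (by norm_num) (by positivity), Real.log_pow]
      have h5 : 2 * (R : ℝ) + 1 ≤ A1 * n := by rw [hA1]; linarith
      have h6 := Real.log_le_log (by positivity) h5
      rw [Real.log_mul hA1p.ne' hn0.ne'] at h6
      push_cast
      linarith
    have hq1 : |(((z - x).1 : ℤ) : ℝ)| ≤ n * A2 := by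
      rw [abs_of_pos hy1pos, ey1, hA2]
      have hpp : 0 ≤ (n : ℝ) * κ * μ1 := by positivity
      linarith
    have hμ2N : |(n : ℝ) * s.2 - N * μ2| ≤ μ2 := by
      have : (n : ℝ) * s.2 - N * μ2 = (n * κ - N) * μ2 := by rw [← hκ2]; ring
      rw [this, abs_mul, abs_of_pos hm2]
      refine mul_le_of_le_one_left hm2.le ?_
      rw [abs_le]; constructor <;> linarith
    have hy2 : |(((z - x).2 : ℤ) : ℝ)| ≤ 1 / 2 + μ2 + n * (κ * η) := by
      rw [abs_le] at hμ2N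
      rw [ey2, abs_le]
      constructor
      · linarith [hμ2N.1, hμ2N.2, bz2.1, bz2.2, bx2.1, bx2.2]
      · linarith [hμ2N.1, hμ2N.2, bz2.1, bz2.2, bx2.1, bx2.2]
    have hq2 : |(((z - x).2 : ℤ) : ℝ)| ≤ n * A3 := by
      refine hy2.trans ?_
      have hpp : 0 ≤ ((n : ℝ) - 1) * μ2 := mul_nonneg (by linarith) hm2.le
      rw [hA3]; linarith
    have hg1 := log_one_add_sq hn1' hq1
    have hg2 := log_one_add_sq hn1' hq2
    -- linear part
    have hlin1 : t.1 * (x.1 : ℝ) + (((z - x).1 : ℤ) : ℝ) ≤ n * s.1 + 1 / 2 + n * (κ * η) := by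
      rw [ey1]
      have h7 : -((N : ℝ) * η) ≤ (x.1 : ℝ) := by linarith
      have h8 : (1 - t.1) * (-((N : ℝ) * η)) ≤ (1 - t.1) * x.1 :=
        mul_le_mul_of_nonneg_left h7 (by linarith [ht1.2])
      have h9 : (1 - t.1) * ((N : ℝ) * η) ≤ N * η :=
        mul_le_of_le_one_left hNη' (by linarith [ht1.1])
      linarith
    have hlin2 : t.2 * (x.2 : ℝ) + |(((z - x).2 : ℤ) : ℝ)| ≤
        n * (t.2 * s.2) + 1 / 2 + 2 * (1 / 2 + μ2 + n * (κ * η)) := by
      have h7 : (x.2 : ℝ) = z.2 - (((z - x).2 : ℤ) : ℝ) := by rw [ey2]; ring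
      have h8 : t.2 * (x.2 : ℝ) ≤ t.2 * z.2 + |(((z - x).2 : ℤ) : ℝ)| := by
        rw [h7]
        have h9 := neg_abs_le (((z - x).2 : ℤ) : ℝ)
        have h10 : t.2 * |(((z - x).2 : ℤ) : ℝ)| ≤ |(((z - x).2 : ℤ) : ℝ)| :=
          mul_le_of_le_one_left (abs_nonneg _) ht2.2.le
        have h12 : 0 ≤ t.2 * ((((z - x).2 : ℤ) : ℝ) + |(((z - x).2 : ℤ) : ℝ)|) :=
          mul_nonneg ht2.1.le (by linarith)
        linarith
      have h11 : t.2 * (z.2 : ℝ) ≤ t.2 * (n * s.2) + 1 / 2 := by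
        have h13 : t.2 * ((z.2 : ℝ) - n * s.2) ≤ t.2 * (1 / 2) :=
          mul_le_mul_of_nonneg_left bz2.2 ht2.1.le
        linarith [ht2.2]
      linarith
    rw [div_le_iff₀ hn0]
    have e : ((s.1 + t.2 * s.2 + 3 * (κ * η)) + C / (n : ℝ) + 10 * (Real.log (n : ℝ) / (n : ℝ))) * n
        = n * (s.1 + t.2 * s.2 + 3 * (κ * η)) + C + 10 * Real.log n := by
      field_simp
    rw [e, hC]
    linarith
  -- let `η → 0`
  refine le_of_forall_pos_le_add fun ε hε => ?_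
  set η : ℝ := min (ρ / (2 * κ)) (ε / (3 * κ)) with hη
  have hη0 : 0 < η := by positivity
  have e1 : κ * η ≤ ρ / 2 := by
    calc κ * η ≤ κ * (ρ / (2 * κ)) := mul_le_mul_of_nonneg_left (min_le_left _ _) hκ0.le
      _ = ρ / 2 := by field_simp
  have e2 : 3 * (κ * η) ≤ ε := by
    calc 3 * (κ * η) ≤ 3 * (κ * (ε / (3 * κ))) :=
          mul_le_mul_of_nonneg_left (mul_le_mul_of_nonneg_left (min_le_right _ _) hκ0.le)
            (by norm_num)
      _ = ε := by field_simp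
  linarith [main η hη0 e1]

end Pool.Agent.TH982.KRW
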